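import Pool.Agent.H36.TK.Rep

/-!
# THEOREM K (MP_e49dc9_ag): the volume, (A1) and step (4)

* `tau_pos`: `0 < tau q A A A` for `A` ample (the sections of the multiples grow at least quadratically).
* `vol_cy`: `vol A = tau q A A A / 6` for `A` ample.
* `a1`: (A1) `0 < tau q p p T` for `T` effective, `T⁻¹` not effective, if `p` is an irrational boundary class which is not big.
* `four`: (4) near such a class there are large classes with `h0 (bas b m) 1 < chi m`.
-/

set_option autoImplicit false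

open Filter

namespace Pool.Agent.H36.TK

open Pool.Agent.H57.KM Pool.Agent.H54.RV Pool.Agent.H83.TU Pool.Agent.H41.TU Pool.Agent.H20.TK Pool.Agent.H39.TU

variable {k K : Type} [Field k] [Field K] [Algebra k K] {X : Mod k K}
  {ν : Cart X →* Multiplicative (Fin 2 → ℤ)} {p : Fin 2 → ℝ} {x y : (Fin 2 → ℝ) →ₗ[ℝ] ℝ}

/-- quadratic growth, transcendence degree at least two -/
theorem grow_of [CharZero k] (hX : IsVar X) (hg : ∃ g, Gen X g) (z : Fin 2 → K) (hzi : AlgebraicIndependent k z) (A : Cart X)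
    (hA : Ample A) (hfin : ∀ D : Cart X, Module.Finite k (secL D 1)) (C : ℝ) :
    ∃ n : ℕ, 1 ≤ n ∧ C * n < (h0 (A ^ n) 1 : ℝ) := by
  obtain ⟨g, hg⟩ := hg
  have hUF : UF X := uf_all hX
  choose m₀ hm₀ using fun i => hUF A {g} (z i) hA (fun x hx => by
    rw [Finset.mem_singleton.1 hx, hg.top]
    exact Algebra.mem_top)
  obtain ⟨m, hm⟩ : ∃ m, m = max (max (m₀ 0) (m₀ 1)) 1 := ⟨_, rfl⟩
  have hm1 : 1 ≤ m := by rw [hm]; exact le_max_right _ _
  have hmi : ∀ i, m₀ i ≤ m := by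
    intro i
    rw [hm]
    fin_cases i
    · exact (le_max_left _ _).trans (le_max_left _ _)
    · exact (le_max_right _ _).trans (le_max_left _ _)
  choose t ht1 ht2 ht3 using fun i => hm₀ i m (hmi i)
  have ht0 : ∀ i, t i ≠ 0 := fun i => left_ne_zero_of_mul (ht3 i g (Finset.mem_singleton_self g)).1
  have key : ∀ (i : Fin 2) (j a : ℕ), a ≤ j → ∀ y, t i ^ j * z i ^ a * A.eq y ^ (m * j) ∈ X.O y := by
    intro i j a ha y
    have e1 : t i ^ j * z i ^ a * A.eq y ^ (m * j) =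
        (t i * A.eq y ^ m) ^ (j - a) * (t i * z i * A.eq y ^ m) ^ a := by
      obtain ⟨b, rfl⟩ : ∃ b, j = a + b := ⟨j - a, by omega⟩
      rw [Nat.add_sub_cancel_left, pow_mul, mul_pow, mul_pow, mul_pow, pow_add, pow_add]
      ring
    rw [e1]
    exact (X.O y).mul_mem ((X.O y).pow_mem (ht1 i y) _) ((X.O y).pow_mem (ht2 i y) _)
  have hbig : ∀ j : ℕ, (j + 1) ^ 2 ≤ h0 (A ^ (2 * m * j)) 1 := by
    intro j
    have hfin' := hfin (A ^ (2 * m * j))
    obtain ⟨c, hc⟩ : ∃ c, c = t 0 ^ j * t 1 ^ j := ⟨_, rfl⟩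
    have hc0 : c ≠ 0 := by rw [hc]; exact mul_ne_zero (pow_ne_zero _ (ht0 0)) (pow_ne_zero _ (ht0 1))
    have hmem : ∀ ab : Fin (j + 1) × Fin (j + 1),
        c * (z 0 ^ (ab.1 : ℕ) * z 1 ^ (ab.2 : ℕ)) ∈ secL (A ^ (2 * m * j)) 1 := by
      intro ab y
      rw [pow_one, pow_eq]
      have h3 := (X.O y).mul_mem (key 0 j ab.1 (by omega) y) (key 1 j ab.2 (by omega) y)
      have e1 : c * (z 0 ^ (ab.1 : ℕ) * z 1 ^ (ab.2 : ℕ)) * A.eq y ^ (2 * m * j) =
          t 0 ^ j * z 0 ^ (ab.1 : ℕ) * A.eq y ^ (m * j) * (t 1 ^ j * z 1 ^ (ab.2 : ℕ) * A.eq y ^ (m * j)) := by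
        rw [hc]
        have e2 : 2 * m * j = m * j + m * j := by ring
        rw [e2, pow_add]
        ring
      rw [e1]
      exact h3
    have hli : LinearIndependent k fun ab : Fin (j + 1) × Fin (j + 1) =>
        (⟨c * (z 0 ^ (ab.1 : ℕ) * z 1 ^ (ab.2 : ℕ)), hmem ab⟩ : secL (A ^ (2 * m * j)) 1) := by
      refine LinearIndependent.of_comp (secL (A ^ (2 * m * j)) 1).subtype ?_
      have h4 := (Pool.Agent.H32.TK.mono_indep z hzi j).map' (LinearMap.mulLeft k c) (by
        rw [LinearMap.ker_eq_bot]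
        exact mul_right_injective₀ hc0)
      exact h4
    have h5 := hli.fintype_card_le_finrank
    rw [Fintype.card_prod, Fintype.card_fin] at h5
    unfold h0
    calc (j + 1) ^ 2 = (j + 1) * (j + 1) := sq _
      _ ≤ _ := h5
  obtain ⟨j, hj⟩ := exists_nat_gt (max C 1 * (2 * m))
  have hj0 : (0 : ℝ) < j := lt_of_le_of_lt (by positivity) hj
  have hj1 : 1 ≤ j := by
    have : 0 < j := by exact_mod_cast hj0
    exact this
  refine ⟨2 * m * j, Nat.mul_pos (Nat.mul_pos two_pos hm1) hj1, ?_⟩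
  have h6 : (((j + 1) ^ 2 : ℕ) : ℝ) ≤ (h0 (A ^ (2 * m * j)) 1 : ℝ) := by exact_mod_cast hbig j
  refine lt_of_lt_of_le ?_ h6
  push_cast
  have h7 : C * (2 * m * j) ≤ max C 1 * (2 * m) * j := by
    have h8 : C * (2 * m * (j : ℝ)) ≤ max C 1 * (2 * m * j) :=
      mul_le_mul_of_nonneg_right (le_max_left _ _) (by positivity)
    linarith
  have h8 : max C 1 * (2 * m) * j ≤ (j : ℝ) * j := mul_le_mul_of_nonneg_right hj.le hj0.le
  nlinarith

/-- two algebraically independent elements -/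
theorem two_indep (htr : Algebra.trdeg k K = 3) : ∃ z : Fin 2 → K, AlgebraicIndependent k z := by
  obtain ⟨s, hs⟩ := exists_isTranscendenceBasis k K
  have h2 : Cardinal.mk s = 3 := by rw [hs.cardinalMk_eq_trdeg, htr]
  have h2' : Cardinal.mk s = Cardinal.mk (Fin 3) := by rw [h2]; simp
  obtain ⟨e⟩ := Cardinal.eq.1 h2'
  exact ⟨fun i => ((e.symm (Fin.castSucc i) : s) : K),
    hs.1.comp (fun i : Fin 2 => e.symm (Fin.castSucc i)) (e.symm.injective.comp (Fin.castSucc_injective 2))⟩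

variable {q : Fin 4 → ℝ} {l : V 2 →ₗ[ℝ] ℝ} {c : ℝ}

/-- the Hilbert polynomial of the multiples of an ample divisor -/
theorem ev_pow (hcy : CY q l c ν) (A : Cart X) (hA : Ample A) :
    ∃ n₀ : ℕ, ∀ n : ℕ, n₀ ≤ n →
      (h0 (A ^ n) 1 : ℝ) = tau q (cv ν A) (cv ν A) (cv ν A) / 6 * n ^ 3 + l (cv ν A) * n + c := by
  obtain ⟨n₀, hn⟩ := hcy.ev 1 A hA
  refine ⟨n₀, fun n hn' => ?_⟩
  have h1 := hn n hn'
  rw [one_mul, cv_pow] at h1
  rw [h1]
  unfold chi
  rw [tau_smul, tau_smul2, tau_smul3, map_smul, smul_eq_mul]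
  ring

theorem tau_pos [CharZero k] (h : Hyp X) (hcy : CY q l c ν) (A : Cart X) (hA : Ample A) :
    0 < tau q (cv ν A) (cv ν A) (cv ν A) := by
  have hG : GF X := Pool.Agent.H20.TU.gf h.var h.gen h.tr
  by_contra hneg
  push Not at hneg
  obtain ⟨n₀, hn⟩ := ev_pow hcy A hA
  obtain ⟨z, hz⟩ := two_indep (k := k) (K := K) h.tr
  -- `A ^ (n₀ + 1)` has the multiples `A ^ ((n₀ + 1) n)`
  have hA' : Ample (A ^ (n₀ + 1)) := ample_pow A (n₀ + 1) (Nat.succ_pos _) hA
  obtain ⟨n, hn1, hn2⟩ := grow_of h.var h.gen z hz (A ^ (n₀ + 1)) hA' (fun D => hG.1 D 1)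
    ((|l (cv ν A)| + |c|) * ((n₀ : ℝ) + 1))
  rw [← pow_mul] at hn2
  have h1 : n₀ ≤ (n₀ + 1) * n := by nlinarith
  rw [hn _ h1] at hn2
  push_cast at hn2
  have hn1' : (1 : ℝ) ≤ n := by exact_mod_cast hn1
  have hn0' : (0 : ℝ) ≤ n₀ := Nat.cast_nonneg _
  have e1 : tau q (cv ν A) (cv ν A) (cv ν A) / 6 * (((n₀ : ℝ) + 1) * n) ^ 3 ≤ 0 :=
    mul_nonpos_of_nonpos_of_nonneg (by linarith) (by positivity)
  have e2 : l (cv ν A) * (((n₀ : ℝ) + 1) * n) ≤ |l (cv ν A)| * (((n₀ : ℝ) + 1) * n) :=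
    mul_le_mul_of_nonneg_right (le_abs_self _) (by positivity)
  have e3 : c ≤ |c| * (((n₀ : ℝ) + 1) * n) := by
    have h2 : |c| * 1 ≤ |c| * (((n₀ : ℝ) + 1) * n) := mul_le_mul_of_nonneg_left (by nlinarith) (abs_nonneg c)
    linarith [le_abs_self c]
  nlinarith

theorem vol_cy (hcy : CY q l c ν) (A : Cart X) (hA : Ample A) :
    vol A = tau q (cv ν A) (cv ν A) (cv ν A) / 6 := by
  obtain ⟨n₀, hn⟩ := ev_pow hcy A hA
  have h1 : Tendsto (fun n : ℕ => (h0 A n : ℝ) / (n : ℝ) ^ 3) atTop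
      (nhds (tau q (cv ν A) (cv ν A) (cv ν A) / 6)) := by
    obtain ⟨T, hT⟩ : ∃ T, T = tau q (cv ν A) (cv ν A) (cv ν A) / 6 := ⟨_, rfl⟩
    rw [← hT]
    have h2 : Tendsto (fun n : ℕ => T + l (cv ν A) * (1 / (n : ℝ)) ^ 2 + c * (1 / (n : ℝ)) ^ 3) atTop
        (nhds (T + l (cv ν A) * 0 ^ 2 + c * 0 ^ 3)) := by
      have h3 : Tendsto (fun n : ℕ => 1 / (n : ℝ)) atTop (nhds 0) := tendsto_one_div_atTop_nhds_zero_nat
      exact (tendsto_const_nhds.add ((h3.pow 2).const_mul _)).add ((h3.pow 3).const_mul _)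
    rw [show T + l (cv ν A) * 0 ^ 2 + c * 0 ^ 3 = T by ring] at h2
    refine h2.congr' ?_
    filter_upwards [eventually_ge_atTop (max n₀ 1)] with n hn'
    have hn1 : 1 ≤ n := (le_max_right _ _).trans hn'
    have hn0 : (n : ℝ) ≠ 0 := by
      have : n ≠ 0 := by omega
      exact_mod_cast this
    have h4' : secL A n = secL (A ^ n) 1 := by
      ext s
      constructor
      · intro hs y
        rw [pow_one, pow_eq]
        exact hs y
      · intro hs y
        have := hs y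
        rw [pow_one, pow_eq] at this
        exact this
    have h4 : h0 A n = h0 (A ^ n) 1 := by
      unfold h0
      rw [h4']
    rw [h4, hn n ((le_max_left _ _).trans hn'), ← hT]
    field_simp
  unfold vol
  exact h1.limsup_eq

theorem tau_dcub (u w : V 2) : tau q u u w = 2 * dcub q u w := by
  unfold tau dcub
  ring

theorem tau_self (u : V 2) : tau q u u u / 6 = cub q u := tau_cub q u

/-- (A1) -/
theorem a1 [CharZero k] (h : Hyp X) (hν : Num ν) (hcy : CY q l c ν)
    (hp1 : p ∈ closure (AmpV ν)) (hp2 : p ∉ interior (EffV ν))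
    (hp3 : ∀ (t : ℝ) (s : Fin 2 → ℤ), t ≠ 0 → t • p ≠ toR s)
    (T : Cart X) (hT : Effective T) (hT' : ¬ Effective T⁻¹) : 0 < tau q p p (cv ν T) := by
  obtain ⟨b, hb⟩ := Pool.Agent.H36.TU.exists_bas hν
  obtain ⟨H, hH⟩ := h.amp
  obtain ⟨H', hH'⟩ := cv_mono_self ν b hb H
  have hHb : Ample (bas b H') := by
    refine Pool.Agent.H36.TU.ac_holds h.var hν _ ?_
    show cv ν (b 0 ^ H' 0 * b 1 ^ H' 1) ∈ AmpV ν
    rw [hH']
    exact ampV_cv ν H hH
  have hcv : ∀ m, cv ν (b 0 ^ m 0 * b 1 ^ m 1) = toR m := fun m => cv_bas (ν := ν) hb m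
  have h1 := cub_pos h ν hν p hp1 hp2 (fun t ht s => hp3 t s ht) b hb q (fun m hm => by
    rw [vol_cy hcy _ hm, hcv, tau_self]
    rfl) (fun m hm => by
    have h2 := tau_pos h hcy _ hm
    rw [hcv] at h2
    have h3 := tau_self (q := q) (toR m)
    have h4 : cub q (fun i => (m i : ℝ)) = cub q (toR m) := rfl
    rw [h4, ← h3]
    positivity) (fun m => by
    obtain ⟨z, hz⟩ := tau_int hcy hb hHb m m m
    refine ⟨z, ?_⟩
    rw [← hz]
    have h3 := tau_self (q := q) (toR m)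
    have h4 : cub q (fun i => (m i : ℝ)) = cub q (toR m) := rfl
    rw [h4, ← h3]
    ring) T hT hT'
  rw [tau_dcub]
  linarith

/-- (4): near an irrational boundary class which is not big there are large classes with few sections -/
theorem four [IsAlgClosed k] [CharZero k] (h : Hyp X) (hsm : ∀ x, SmP X x) (hν : Num ν) (hcy : CY q l c ν)
    (hp1 : p ∈ closure (AmpV ν)) (hp2 : p ∉ interior (EffV ν))
    (hp3 : ∀ (t : ℝ) (s : Fin 2 → ℤ), t ≠ 0 → t • p ≠ toR s) {b : Fin 2 → Cart X}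
    (hb : ∀ i, cv ν (b i) = Pi.single i 1) {H : Fin 2 → ℤ} (hH : toR H ∈ AmpV ν) (hc : Cor ν p H x y)
    (δ X₀ : ℝ) (hδ : 0 < δ) :
    ∃ m : Fin 2 → ℤ, Ample (bas b m) ∧ X₀ ≤ x (toR m) ∧ |y (toR m)| ≤ δ * x (toR m) ∧
      (h0 (bas b m) 1 : ℝ) < chi q l c (toR m) := by
  have hop : IsOpen (AmpV ν) := Pool.Agent.H36.TU.ampV_open h.var hν
  have hHb : Ample (bas b H) := (amp_bas h.var hν hb H).2 hH
  have hxp := hc.xp
  -- `l p > 0`
  have hlp : 0 < l p := by
    have hl0 : 0 ≤ l p := Pool.Agent.H32.TK.clos_nn (ν := ν) l (fun A hA => (hcy.pos A hA).le) hp1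
    refine lt_of_le_of_ne hl0 fun h0 => ?_
    choose g hg using l_rat hcy hb hHb
    obtain ⟨δ', hδ'⟩ : ∃ δ' : (Fin 2 → ℤ) →+ ℤ, ∀ m, (δ' m : ℝ) = 6 * l (toR m) := by
      refine ⟨⟨⟨g, ?_⟩, ?_⟩, fun m => (hg m).symm⟩
      · have h1 := hg 0
        rw [toR_zero, map_zero, mul_zero] at h1
        exact_mod_cast h1.symm
      · intro m n
        have h1 := hg (m + n)
        rw [toR_add, map_add, mul_add, hg m, hg n] at h1
        exact_mod_cast h1.symm
    have h1 : ext δ' p = 6 * l p := by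
      have h2 : ∀ v : V 2, ext δ' v = 6 * l v := by
        intro v
        have h3 := ext_toR δ' (Pi.single 0 1)
        have h4 := ext_toR δ' (Pi.single 1 1)
        rw [ext_apply]
        have e0 : (δ' (Pi.single 0 1) : ℝ) = 6 * l (Pi.single 0 1) := by
          rw [hδ']
          congr 2
          funext i
          fin_cases i <;> simp [toR]
        have e1 : (δ' (Pi.single 1 1) : ℝ) = 6 * l (Pi.single 1 1) := by
          rw [hδ']
          congr 2
          funext i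
          fin_cases i <;> simp [toR]
        rw [e0, e1]
        have h5 : v = v 0 • (Pi.single 0 1 : V 2) + v 1 • (Pi.single 1 1 : V 2) := by
          funext i
          fin_cases i <;> simp
        have h6 : l v = v 0 * l (Pi.single 0 1) + v 1 * l (Pi.single 1 1) := by
          conv_lhs => rw [h5]
          rw [map_add, map_smul, map_smul, smul_eq_mul, smul_eq_mul]
        rw [h6]
        ring
      exact h2 p
    rw [← h0, mul_zero] at h1
    have h2 := hc.ext_zero δ' h1 H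
    have h3 := hδ' H
    rw [h2] at h3
    have h4 := hcy.pos (bas b H) hHb
    rw [cv_bas hb] at h4
    push_cast at h3
    linarith
  -- constants: near `p` the form `l` is at least `κ * x`
  obtain ⟨κ, hκ⟩ : ∃ κ, κ = l p / (2 * x p) := ⟨_, rfl⟩
  have hκ0 : 0 < κ := by rw [hκ]; positivity
  obtain ⟨R, hR⟩ : ∃ R, R = max (max X₀ 1) (2 * |c| / κ) := ⟨_, rfl⟩
  have hR1 : 1 ≤ R := by rw [hR]; exact (le_max_right _ _).trans (le_max_left _ _)
  have hRX : X₀ ≤ R := by rw [hR]; exact (le_max_left _ _).trans (le_max_left _ _)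
  have hRc : 2 * |c| ≤ R * κ := by
    rw [← div_le_iff₀ hκ0, hR]
    exact le_max_right _ _
  -- the lattice points in the box
  have hfin : {m : Fin 2 → ℤ | |cof y m| ≤ max (δ * R) R ∧ |cof x m| ≤ max (δ * R) R}.Finite :=
    hc.crd.fin _
  obtain ⟨η, hη, hηm⟩ : ∃ η : ℝ, 0 < η ∧ ∀ m ∈ hfin.toFinset, 0 < y (toR m) → η ≤ y (toR m) := by
    induction hfin.toFinset using Finset.induction_on with
    | empty => exact ⟨1, one_pos, by simp⟩
    | insert a s _ ih =>
      obtain ⟨η, h0, h1⟩ := ih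
      rcases lt_or_ge 0 (y (toR a)) with h2 | h2
      · refine ⟨min η (y (toR a)), lt_min h0 h2, fun m hm hy => ?_⟩
        rcases Finset.mem_insert.1 hm with h3 | h3
        · rw [h3]; exact min_le_right _ _
        · exact (min_le_left _ _).trans (h1 m h3 hy)
      · refine ⟨η, h0, fun m hm hy => ?_⟩
        rcases Finset.mem_insert.1 hm with h3 | h3
        · rw [h3] at hy
          exact absurd hy (not_lt.2 h2)
        · exact h1 m h3 hy
  obtain ⟨δ', hδ'⟩ : ∃ δ', δ' = min δ (η / (2 * R)) := ⟨_, rfl⟩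
  have hR0 : 0 < R := by linarith
  have hδ0 : 0 < δ' := by rw [hδ']; exact lt_min hδ (by positivity)
  have hcx : Continuous x := LinearMap.continuous_of_finiteDimensional x
  have hcy' : Continuous y := LinearMap.continuous_of_finiteDimensional y
  have hcl : Continuous l := LinearMap.continuous_of_finiteDimensional l
  obtain ⟨m, hm1, ⟨t, ht, htU⟩, hm3⟩ := ib_rep h hsm hν hp1 hp2 hp3 hb ((1 / 2 : ℝ) • l)
    (by rw [LinearMap.smul_apply, smul_eq_mul]; linarith)
    ({v | |y v| < δ' * x v} ∩ {v | κ * x v < l v})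
    ((isOpen_lt hcy'.abs (continuous_const.mul hcx)).inter (isOpen_lt (continuous_const.mul hcx) hcl))
    ⟨by
      show |y p| < δ' * x p
      rw [hc.yp, abs_zero]
      positivity, by
      show κ * x p < l p
      rw [hκ]
      have e : l p / (2 * x p) * x p = l p / 2 := by field_simp
      rw [e]
      linarith⟩
  have hU1 : |y (toR m)| < δ' * x (toR m) := by
    have h1 : |y (t • toR m)| < δ' * x (t • toR m) := htU.1
    rw [map_smul, map_smul, smul_eq_mul, smul_eq_mul, abs_mul, abs_of_pos ht] at h1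
    have e : δ' * (t * x (toR m)) = t * (δ' * x (toR m)) := by ring
    rw [e] at h1
    exact lt_of_mul_lt_mul_left h1 ht.le
  have hU2 : κ * x (toR m) < l (toR m) := by
    have h1 : κ * x (t • toR m) < l (t • toR m) := htU.2
    rw [map_smul, map_smul, smul_eq_mul, smul_eq_mul] at h1
    have e : κ * (t * x (toR m)) = t * (κ * x (toR m)) := by ring
    rw [e] at h1
    exact lt_of_mul_lt_mul_left h1 ht.le
  have hxm : 0 < x (toR m) := by
    by_contra hneg
    push Not at hneg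
    have h1 := abs_nonneg (y (toR m))
    have h2 : δ' * x (toR m) ≤ 0 := mul_nonpos_of_nonneg_of_nonpos hδ0.le hneg
    linarith
  have hym : 0 < y (toR m) := hc.yamp _ ((amp_bas h.var hν hb m).1 hm1)
  have hlarge : R ≤ x (toR m) := by
    by_contra hlt
    push Not at hlt
    have h1 : δ' * x (toR m) ≤ δ * R := by
      have h2 : δ' ≤ δ := by rw [hδ']; exact min_le_left _ _
      exact mul_le_mul h2 hlt.le hxm.le hδ.le
    have h2 : m ∈ hfin.toFinset := by
      rw [Set.Finite.mem_toFinset]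
      refine ⟨?_, ?_⟩
      · rw [cof_apply]
        exact (hU1.le.trans h1).trans (le_max_left _ _)
      · rw [cof_apply, abs_of_pos hxm]
        exact hlt.le.trans (le_max_right _ _)
    have h3 := hηm m h2 hym
    have h4 : δ' * x (toR m) ≤ η / 2 := by
      have h5 : δ' ≤ η / (2 * R) := by rw [hδ']; exact min_le_right _ _
      have h6 : δ' * x (toR m) ≤ η / (2 * R) * R := mul_le_mul h5 hlt.le hxm.le (by positivity)
      have h7 : η / (2 * R) * R = η / 2 := by field_simp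
      linarith
    rw [abs_of_pos hym] at hU1
    linarith
  refine ⟨m, hm1, hRX.trans hlarge, hU1.le.trans (mul_le_mul_of_nonneg_right (by rw [hδ']; exact min_le_left _ _) hxm.le), ?_⟩
  rw [vol_cy hcy _ hm1, cv_bas hb, LinearMap.smul_apply, smul_eq_mul] at hm3
  refine hm3.trans_le ?_
  unfold chi
  have h1 : R * κ ≤ κ * x (toR m) := by
    rw [mul_comm]
    exact mul_le_mul_of_nonneg_left hlarge hκ0.le
  have h2 := neg_abs_le c
  linarith

end Pool.Agent.H36.TK
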