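import Pool.Agent.H36.TK.W0
import Pool.Agent.H41.TW.Crv1

/-!
# THEOREM K (MP_e49dc9_ag): Lemma W for `B S² ≥ 0`, final form
-/

set_option autoImplicit false

namespace Pool.Agent.H36.TK

open Pool.Agent.H54.RV Pool.Agent.H83.TU Pool.Agent.H83.TK Pool.Agent.H24.TK Pool.Agent.H41.TK Pool.Agent.H20.TK
  Pool.Agent.H41.TW

variable {k K : Type} [Field k] [Field K] [Algebra k K] {X : Mod k K}
  {ν : Cart X →* Multiplicative (Fin 2 → ℤ)} {q : Fin 4 → ℝ} {l : (Fin 2 → ℝ) →ₗ[ℝ] ℝ} {c : ℝ}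

theorem ex1 [IsAlgClosed k] [CharZero k] [T0Space X.P] (hX : IsVar X) {z : X.P} {S : Cart X}
    (hz : Algebra.trdeg k (X.kap z) = 2) (hA : Ample S) : Ex1 hX z S :=
  exists_curve1 hX z hz hA

/-- Lemma W for `0 ≤ B S²` -/
theorem lem_w1 [IsAlgClosed k] [CharZero k] [T0Space X.P] (hX : IsVar X) (hg : ∃ g, Gen X g) (cy : CY q l c ν)
    {z : X.P} {S : Cart X} (hS : SPr X z S) (hz : Algebra.trdeg k (X.kap z) = 2) (hA : Ample S) (B : Cart X)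
    (hB : 0 ≤ tau q (cv ν B) (cv ν S) (cv ν S)) (j : ℕ)
    (hj : h0 (resD hX z (B * S)) 1 ≤ Module.finrank k (LinearMap.range (resS hX z (B * S) 1)) + j) :
    Pool.Agent.H20.TK.chi q l c (cv ν B + cv ν S) - Pool.Agent.H20.TK.chi q l c (cv ν B) + h0 B 1 ≤
      (h0 (B * S) 1 : ℝ) + j + 1 :=
  lem_w0 hX hg cy hS hA (ex1 hX hz hA) B hB j hj

end Pool.Agent.H36.TK
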