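import Pool.Agent.H36.TK.Four
import Pool.Agent.H32.TK.HC

/-!
# THEOREM K (MP_e49dc9_ag): boundary classes which are not big have degree zero

`nb`: an integral class `N` in the closure of the ample cone and not in the interior of the effective cone satisfies
`tau q N N N = 0`.

PROOF.  `y`: a form with `y N = 0`, `y ≥ 0` on the effective and `y > 0` on the ample classes (`sup`).  A multiple of an
ample divisor is a sum of prime divisors, so there is a prime divisor `S` with `y S > 0`.  For `j ≥ 1` the class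
`j N + H` is ample and `y (j N + H) = y H`; the sections of its multiples vanish along `S` to a bounded order, so its
volume is at most `C j ^ 2`.  It is `tau (j N + H) ^ 3 / 6`.
-/

set_option autoImplicit false

open Filter Topology

namespace Pool.Agent.H36.TK

open Pool.Agent.H57.KM Pool.Agent.H54.RV Pool.Agent.H83.TU Pool.Agent.H83.TK Pool.Agent.H41.TU Pool.Agent.H20.TK
  Pool.Agent.H39.TU Pool.Agent.H36.TU Pool.Agent.H32.TK

variable {k K : Type} [Field k] [Field K] [Algebra k K] {X : Mod k K}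
  {ν : Cart X →* Multiplicative (Fin 2 → ℤ)} {q : Fin 4 → ℝ} {l : V 2 →ₗ[ℝ] ℝ} {c : ℝ}

/-- the divisor of a prime surface -/
theorem ps_spr (hX : IsVar X) (P : PDiv X) {S : Cart X} (hS : SPr X P.η S) : PS P S where
  eff := hS.eff
  ord := spr_ord P hS
  sub := by
    intro E hE hord x
    have hun : ¬ Un (X.O P.η) (E.eq P.η) := by
      rintro ⟨-, h1, h2⟩
      have := (ord_eq_zero P.p _ (E.ne _)).2 ⟨(P.mem _).1 h1, (P.mem _).1 h2⟩
      omega
    rw [mul_eq, inv_eq, ← div_eq_mul_inv, hS.mem_iff hX x (hE x)]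
    intro hx h1
    apply hun
    have h2 := quo_un E P.η x hx
    have h3 : E.eq P.η = E.eq x * (E.eq x / E.eq P.η)⁻¹ := by
      have := E.ne x
      have := E.ne P.η
      field_simp
    rw [h3]
    exact un_mul h1 (un_inv h2)

/-- the data of the bound, for a given prime divisor -/
theorem bd_of (hG : GF X) (hU : UN X) (b : Fin 2 → Cart X) (hamp : ∃ A : Cart X, Ample A) (P : PDiv X) {S : Cart X}
    (hS : PS P S) : ∃ (A : Cart X) (C : ℕ), BD P S A b C := by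
  obtain ⟨A, hA⟩ := hamp
  have hun : ∀ M : Cart X, ∃ m₀ : ℕ, ∀ m ≥ m₀, UnAt P.η (A ^ m * M) := by
    intro M
    obtain ⟨m₀, hm⟩ := hU A M {P.η} hA
    refine ⟨m₀, fun m hmm => ?_⟩
    obtain ⟨s, hs, hx⟩ := hm m hmm
    exact ⟨s, hs, hx P.η (Finset.mem_singleton_self _)⟩
  choose f hf using hun
  obtain ⟨m, hm⟩ : ∃ m, m = f 1 + f S + f S⁻¹ + f (b 0) + f (b 1) + f (b 0)⁻¹ + f (b 1)⁻¹ := ⟨_, rfl⟩
  obtain ⟨C, hC⟩ := hG.2 (A ^ m)
  refine ⟨A ^ m, C, ⟨hS, fun E => hG.1 E 1, ?_, ?_, ?_, ?_, ?_, hC⟩⟩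
  · have := hf 1 m (by omega)
    rwa [mul_one] at this
  · exact hf S m (by omega)
  · exact hf S⁻¹ m (by omega)
  · intro i
    fin_cases i
    · exact hf (b 0) m (by omega)
    · exact hf (b 1) m (by omega)
  · intro i
    fin_cases i
    · exact hf (b 0)⁻¹ m (by omega)
    · exact hf (b 1)⁻¹ m (by omega)

/-- no sections on the wrong side -/
theorem hh_zero' (hν : Num ν) {y : (Fin 2 → ℝ) →ₗ[ℝ] ℝ} (hy : ∀ v ∈ EffV ν, 0 ≤ y v)
    (E : Cart X) (hE : y (cv ν E) < 0) : hh E = 0 := by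
  have h1 : secL E 1 = ⊥ := by
    rw [eq_bot_iff]
    intro s hs
    rw [Submodule.mem_bot]
    by_contra h0
    have h2 : Effective (prin X s h0 * E) := by
      intro z
      have h3 : s * E.eq z ^ 1 ∈ X.O z := hs z
      rw [pow_one] at h3
      exact h3
    have h4 := hy _ (effV_cv ν _ h2)
    rw [cv_mul, cv_prin hν, zero_add] at h4
    linarith
  unfold hh
  rw [h1, finrank_bot]
  rfl

/-- the bound for the volume -/
theorem vol_bd (hν : Num ν) {y : (Fin 2 → ℝ) →ₗ[ℝ] ℝ} (hc : ∀ v ∈ EffV ν, 0 ≤ y v)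
    {P : PDiv X} {S A : Cart X} {b : Fin 2 → Cart X} {C : ℕ} (h : BD P S A b C)
    (hyS : 0 < y (cv ν S)) (m : Fin 2 → ℤ) (hm : 1 ≤ sz m)
    (hy : 0 < y (cv ν (b 0 ^ m 0 * b 1 ^ m 1))) :
    vol (b 0 ^ m 0 * b 1 ^ m 1) ≤ 8 * C * (y (cv ν (b 0 ^ m 0 * b 1 ^ m 1)) / y (cv ν S)) *
      (sz m + y (cv ν (b 0 ^ m 0 * b 1 ^ m 1)) / y (cv ν S)) ^ 2 := by
  obtain ⟨D, hD⟩ : ∃ D : Cart X, D = b 0 ^ m 0 * b 1 ^ m 1 := ⟨_, rfl⟩
  rw [← hD] at hy ⊢
  obtain ⟨r, hr⟩ : ∃ r, r = y (cv ν D) / y (cv ν S) := ⟨_, rfl⟩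
  have hr0 : 0 < r := by rw [hr]; exact div_pos hy hyS
  rw [← hr]
  have hryS : r * y (cv ν S) = y (cv ν D) := by
    rw [hr]
    exact div_mul_cancel₀ _ hyS.ne'
  have hb : ∀ n : ℕ, 1 ≤ n → (h0 D n : ℝ) / (n : ℝ) ^ 3 ≤
      8 * C * (r + 1 / (n : ℝ)) * (sz m + (r + 1 / (n : ℝ))) ^ 2 := by
    intro n hn
    have hn0 : (0 : ℝ) < n := by exact_mod_cast hn
    obtain ⟨I, hI⟩ : ∃ I : ℕ, I = ⌊(n : ℝ) * r⌋₊ + 1 := ⟨_, rfl⟩
    have hI1 : (I : ℝ) ≤ n * r + 1 := by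
      rw [hI]
      push_cast
      have := Nat.floor_le (by positivity : (0 : ℝ) ≤ n * r)
      linarith
    have hI2 : (n : ℝ) * r < I := by
      rw [hI]
      push_cast
      exact Nat.lt_floor_add_one _
    have h1 : hh ((b 0 ^ m 0 * b 1 ^ m 1) ^ n * S⁻¹ ^ I) = 0 := by
      refine hh_zero' hν hc _ ?_
      rw [← hD, cv_mul, cv_pow, cv_pow, cv_inv, map_add, map_smul, map_smul, map_neg, smul_eq_mul,
        smul_eq_mul, ← hryS]
      have h2 : (n : ℝ) * (r * y (cv ν S)) < I * y (cv ν S) := by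
        rw [← mul_assoc]
        exact mul_lt_mul_of_pos_right hI2 hyS
      linarith
    have h2 := h0_le h m hm n I hn h1
    rw [← hD] at h2
    have h3 : (h0 D n : ℝ) ≤ (I : ℝ) * (8 * (C : ℝ) * ((n : ℝ) * sz m + I) ^ 2) := by
      have h4 : ((h0 D n : ℤ) : ℝ) ≤
          (((I : ℤ) * (8 * (C : ℤ) * ((n * sz m + I : ℕ) : ℤ) ^ 2) : ℤ) : ℝ) := by
        exact_mod_cast h2
      push_cast at h4
      exact h4
    have hC0 : (0 : ℝ) ≤ C := Nat.cast_nonneg _
    have hs0 : (0 : ℝ) ≤ sz m := Nat.cast_nonneg _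
    have hI0 : (0 : ℝ) ≤ I := Nat.cast_nonneg _
    rw [div_le_iff₀ (by positivity)]
    refine h3.trans ?_
    have h5 : (n : ℝ) * sz m + I ≤ n * sz m + (n * r + 1) := by linarith
    have h6 : ((n : ℝ) * sz m + I) ^ 2 ≤ (n * sz m + (n * r + 1)) ^ 2 :=
      pow_le_pow_left₀ (by positivity) h5 2
    calc (I : ℝ) * (8 * (C : ℝ) * ((n : ℝ) * sz m + I) ^ 2) ≤
        (n * r + 1) * (8 * (C : ℝ) * (n * sz m + (n * r + 1)) ^ 2) := by
          refine mul_le_mul hI1 ?_ (by positivity) (by positivity)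
          exact mul_le_mul_of_nonneg_left h6 (by positivity)
      _ = 8 * C * (r + 1 / (n : ℝ)) * (sz m + (r + 1 / (n : ℝ))) ^ 2 * (n : ℝ) ^ 3 := by
          field_simp
  have h1n : Tendsto (fun n : ℕ => 1 / (n : ℝ)) atTop (𝓝 0) := tendsto_one_div_atTop_nhds_zero_nat
  have h2n : Tendsto (fun n : ℕ => r + 1 / (n : ℝ)) atTop (𝓝 (r + 0)) := tendsto_const_nhds.add h1n
  rw [add_zero] at h2n
  have hlim : Tendsto (fun n : ℕ => 8 * C * (r + 1 / (n : ℝ)) * (sz m + (r + 1 / (n : ℝ))) ^ 2) atTop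
      (𝓝 (8 * C * r * (sz m + r) ^ 2)) :=
    (h2n.const_mul (8 * (C : ℝ))).mul ((tendsto_const_nhds.add h2n).pow 2)
  unfold vol
  rw [← hlim.limsup_eq]
  refine limsup_le_limsup ?_ ?_ hlim.isBoundedUnder_le
  · filter_upwards [eventually_ge_atTop 1] with n hn
    exact hb n hn
  · exact isCoboundedUnder_le_of_le atTop (x := 0) fun n => by positivity

/-- there is a prime divisor where `y` is positive -/
theorem exists_ypos [CharZero k] (h : Hyp X) (hν : Num ν) (hcy : CY q l c ν) {y : (Fin 2 → ℝ) →ₗ[ℝ] ℝ}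
    (hy : ∀ v ∈ EffV ν, 0 ≤ y v) (hy' : ∀ v ∈ AmpV ν, 0 < y v) :
    ∃ (P : PDiv X) (S : Cart X), SPr X P.η S ∧ 0 < y (cv ν S) := by
  obtain ⟨A, hA⟩ := h.amp
  obtain ⟨x⟩ := h.var.ne
  obtain ⟨n, hn, s, hs, hx, -⟩ := hA x
  have hs0 : s ≠ 0 := left_ne_zero_of_mul (And.left hx)
  obtain ⟨E, hE⟩ : ∃ E, E = prin X s hs0 * A ^ n := ⟨_, rfl⟩
  have hEe : Effective E := by
    intro z
    rw [hE, mul_eq, pow_eq]
    exact hs z
  have hyE : 0 < y (cv ν E) := by
    rw [hE, cv_mul, cv_prin hν, cv_pow, zero_add, map_smul, smul_eq_mul]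
    have h1 := hy' _ (ampV_cv ν A hA)
    have h2 : (0 : ℝ) < n := by exact_mod_cast hn
    positivity
  obtain ⟨Ls, U, h1, h2, h3, h4⟩ := factor h hν hcy hEe
  have hU : y (cv ν U) = 0 := by
    have h5 := hy _ (effV_cv ν U h2)
    have h6 := hy _ (effV_cv ν _ h3)
    rw [cv_inv, map_neg] at h6
    linarith
  by_contra hcon
  push Not at hcon
  have h5 : ∀ L : List (PDiv X × Cart X), (∀ p ∈ L, SPr X p.1.η p.2) → y (cv ν (L.map Prod.snd).prod) ≤ 0 := by
    intro L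
    induction L with
    | nil =>
      intro _
      rw [List.map_nil, List.prod_nil, cv_one, map_zero]
    | cons p L ih =>
      intro hL
      rw [List.map_cons, List.prod_cons, cv_mul, map_add]
      have h6 := hcon p.1 p.2 (hL p List.mem_cons_self)
      have h7 := ih fun r hr => hL r (List.mem_cons_of_mem _ hr)
      linarith
  have h6 := h5 Ls h1
  rw [h4, cv_mul, map_add, hU] at hyE
  linarith

theorem sz_line (N H : Fin 2 → ℤ) (j : ℕ) : sz (j • N + H) ≤ j * sz N + sz H := by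
  unfold sz
  have h1 : ∀ i, ((j • N + H) i).natAbs ≤ j * (N i).natAbs + (H i).natAbs := by
    intro i
    rw [Pi.add_apply, Pi.smul_apply, nsmul_eq_mul]
    refine (Int.natAbs_add_le _ _).trans ?_
    rw [Int.natAbs_mul]
    exact le_rfl
  have h2 := h1 0
  have h3 := h1 1
  rw [Nat.mul_add]
  omega

private theorem le_zero {a B : ℝ} (h : ∀ j : ℕ, 1 ≤ j → a * (j : ℝ) ^ 3 ≤ B * (j : ℝ) ^ 2) : a ≤ 0 := by
  by_contra ha
  push Not at ha
  obtain ⟨j, hj⟩ := exists_nat_gt (max (B / a) 1)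
  have h1 : (1 : ℝ) < j := lt_of_le_of_lt (le_max_right _ _) hj
  have h2 : B < j * a := by
    have := lt_of_le_of_lt (le_max_left _ _) hj
    rwa [div_lt_iff₀ ha] at this
  have h3 : 1 ≤ j := by
    have : (1 : ℝ) ≤ j := h1.le
    exact_mod_cast this
  have h4 := h j h3
  have h5 : B * (j : ℝ) ^ 2 < j * a * (j : ℝ) ^ 2 := mul_lt_mul_of_pos_right h2 (by positivity)
  nlinarith

private theorem abs_three (B₁ B₂ B₃ : ℝ) (j : ℕ) (hj : 1 ≤ j) :
    -(B₁ * (j : ℝ) ^ 2 + B₂ * j + B₃) ≤ (|B₁| + |B₂| + |B₃|) * (j : ℝ) ^ 2 := by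
  have h1 : (1 : ℝ) ≤ j := by exact_mod_cast hj
  have h2 : (j : ℝ) ≤ (j : ℝ) ^ 2 := by nlinarith
  have h3 : (1 : ℝ) ≤ (j : ℝ) ^ 2 := by nlinarith
  have a1 : -B₁ * (j : ℝ) ^ 2 ≤ |B₁| * (j : ℝ) ^ 2 :=
    mul_le_mul_of_nonneg_right (neg_le_abs B₁) (by positivity)
  have a2 : -B₂ * (j : ℝ) ≤ |B₂| * (j : ℝ) ^ 2 :=
    mul_le_mul (neg_le_abs B₂) h2 (by positivity) (abs_nonneg _)
  have a3 : -B₃ ≤ |B₃| * (j : ℝ) ^ 2 := by
    have h4 : |B₃| * 1 ≤ |B₃| * (j : ℝ) ^ 2 := mul_le_mul_of_nonneg_left h3 (abs_nonneg _)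
    have h5 := neg_le_abs B₃
    linarith
  linarith

/-- boundary classes which are not big have degree zero -/
theorem nb [CharZero k] (h : Hyp X) (hν : Num ν) (hcy : CY q l c ν) (N : Fin 2 → ℤ)
    (hp1 : toR N ∈ closure (AmpV ν)) (hp2 : toR N ∉ interior (EffV ν)) :
    tau q (toR N) (toR N) (toR N) = 0 := by
  have hop : IsOpen (AmpV ν) := Pool.Agent.H36.TU.ampV_open h.var hν
  have hAC : AC ν := Pool.Agent.H36.TU.ac_holds h.var hν
  obtain ⟨y, hyp, hye, hya⟩ := sup h hν hop _ hp1 hp2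
  obtain ⟨P, S, hS, hyS⟩ := exists_ypos h hν hcy hye hya
  obtain ⟨b, hb⟩ := Pool.Agent.H32.TK.exists_bas hν
  obtain ⟨A, C, hBD⟩ := bd_of (Pool.Agent.H20.TU.gf h.var h.gen h.tr) (un_holds h.var) b h.amp P
    (ps_spr h.var P hS)
  obtain ⟨Ha, hHa⟩ := h.amp
  obtain ⟨H, hH⟩ : ∃ H, H = cz ν Ha := ⟨_, rfl⟩
  have hHV : toR H ∈ AmpV ν := by
    rw [hH]
    exact ampV_cv ν Ha hHa
  have hcv : ∀ m, cv ν (b 0 ^ m 0 * b 1 ^ m 1) = toR m := fun m => Pool.Agent.H20.TK.cv_bas (ν := ν) hb m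
  have hyH := hya _ hHV
  have hmem : ∀ j : ℕ, toR (j • N + H) ∈ AmpV ν := by
    intro j
    rw [toR_add, toR_nsmul]
    have h1 := comb_mem hop hp1 hHV (a := (j : ℝ)) (b := 1) (Nat.cast_nonneg _) one_pos
    rwa [one_smul] at h1
  have hampj : ∀ j : ℕ, Ample (b 0 ^ (j • N + H) 0 * b 1 ^ (j • N + H) 1) := by
    intro j
    refine hAC _ ?_
    rw [hcv]
    exact hmem j
  have hyj : ∀ j : ℕ, y (toR (j • N + H)) = y (toR H) := by
    intro j
    rw [toR_add, toR_nsmul, map_add, map_smul, hyp, smul_zero, zero_add]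
  obtain ⟨r, hr⟩ : ∃ r, r = y (toR H) / y (cv ν S) := ⟨_, rfl⟩
  have hr0 : 0 < r := by rw [hr]; exact div_pos hyH hyS
  have e1 : ∀ j : ℕ, tau q (toR (j • N + H)) (toR (j • N + H)) (toR (j • N + H)) =
      tau q (toR N) (toR N) (toR N) * (j : ℝ) ^ 3 + (3 * tau q (toR N) (toR N) (toR H) * (j : ℝ) ^ 2 +
        3 * tau q (toR N) (toR H) (toR H) * j + tau q (toR H) (toR H) (toR H)) := by
    intro j
    rw [toR_add, toR_nsmul]
    unfold tau
    simp only [Pi.add_apply, Pi.smul_apply, smul_eq_mul]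
    ring
  obtain ⟨B, hB⟩ : ∃ B, B = |3 * tau q (toR N) (toR N) (toR H)| + |3 * tau q (toR N) (toR H) (toR H)| +
    |tau q (toR H) (toR H) (toR H)| := ⟨_, rfl⟩
  have e2 : ∀ j : ℕ, 1 ≤ j → -(3 * tau q (toR N) (toR N) (toR H) * (j : ℝ) ^ 2 +
      3 * tau q (toR N) (toR H) (toR H) * j + tau q (toR H) (toR H) (toR H)) ≤ B * (j : ℝ) ^ 2 := by
    intro j hj
    rw [hB]
    exact abs_three _ _ _ j hj
  refine le_antisymm (le_zero (B := B + 6 * (8 * C * r * (sz N + sz H + r) ^ 2)) fun j hj => ?_) ?_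
  · have hj1 : (1 : ℝ) ≤ j := by exact_mod_cast hj
    have hsz1 : 1 ≤ sz (j • N + H) := by
      by_contra hlt
      have h0 : j • N + H = 0 := by
        have h1 : sz (j • N + H) = 0 := by omega
        unfold sz at h1
        funext i
        fin_cases i
        · show (j • N + H) 0 = 0
          omega
        · show (j • N + H) 1 = 0
          omega
      have h2 := hyj j
      rw [h0, toR_zero, map_zero] at h2
      linarith
    have h1 := vol_bd hν hye hBD hyS (j • N + H) hsz1 (by rw [hcv, hyj]; exact hyH)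
    rw [vol_cy hcy _ (hampj j), hcv, hyj, ← hr, e1] at h1
    have h2 : (sz (j • N + H) : ℝ) ≤ j * sz N + sz H := by exact_mod_cast sz_line N H j
    have h3 : ((sz (j • N + H) : ℝ) + r) ^ 2 ≤ ((sz N + sz H + r) * j) ^ 2 := by
      refine pow_le_pow_left₀ (by positivity) ?_ 2
      have h4 : (sz H : ℝ) ≤ sz H * j := le_mul_of_one_le_right (Nat.cast_nonneg _) hj1
      have h5 : r ≤ r * j := le_mul_of_one_le_right hr0.le hj1
      linarith
    have h4 : 8 * (C : ℝ) * r * ((sz (j • N + H) : ℝ) + r) ^ 2 ≤ 8 * C * r * ((sz N + sz H + r) * j) ^ 2 :=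
      mul_le_mul_of_nonneg_left h3 (by positivity)
    have h5 := e2 j hj
    have h6 : 8 * (C : ℝ) * r * ((sz N + sz H + r) * j) ^ 2 = 8 * C * r * (sz N + sz H + r) ^ 2 * (j : ℝ) ^ 2 := by
      ring
    rw [h6] at h4
    linarith
  · have h7 : -tau q (toR N) (toR N) (toR N) ≤ 0 := by
      refine le_zero (B := |3 * tau q (toR N) (toR N) (toR H)| + |3 * tau q (toR N) (toR H) (toR H)| +
        |tau q (toR H) (toR H) (toR H)|) fun j hj => ?_
      have h1 := tau_pos h hcy _ (hampj j)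
      rw [hcv, e1] at h1
      have h2 := abs_three (-(3 * tau q (toR N) (toR N) (toR H))) (-(3 * tau q (toR N) (toR H) (toR H)))
        (-tau q (toR H) (toR H) (toR H)) j hj
      rw [abs_neg, abs_neg, abs_neg] at h2
      linarith
    linarith

end Pool.Agent.H36.TK
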