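import Pool.Agent.H36.TU.VC
import Pool.Agent.H36.TU.AB
import Pool.Agent.H41.TU.Fin

/-!
# Theorem K (MP_e49dc9_ag): the cubic form of the volume near an irrational boundary ray which is not big

`cub a`: the binary cubic form with coefficients `a`; `dcub a u w`: its derivative at `u` in direction `w`.

`cub_pos` (A1): let `vol D = cub a (cv ν D)` be positive and `6 * vol D` an integer for the ample `D = b 0 ^ m 0 * b 1 ^ m 1`.  Then `0 < dcub a p (cv ν T)` for every effective `T` such that `T⁻¹` is not effective.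
PROOF.  Coordinates `x, y` with `y p = 0` (Theorem U).  `cub a = A x ^ 3 + B x ^ 2 y + C x y ^ 2 + D y ^ 3`.  By Dirichlet there are indecomposable ample classes with `y → 0`, `x → ∞`, `x * y ≤ C₂`.  `vol ≤ C₁ x ^ 2 y` gives `A = 0`.  `1 / 6 ≤ vol` gives `B > 0`.  `dcub a p (cv ν T) = (x p) ^ 2 * B * y (cv ν T)`.
-/

set_option autoImplicit false

namespace Pool.Agent.H36.TK

open Pool.Agent.H54.RV Pool.Agent.H83.TU Pool.Agent.H41.TU

/-- the binary cubic form with coefficients `a` -/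
def cub (a : Fin 4 → ℝ) (v : Fin 2 → ℝ) : ℝ :=
  a 0 * v 0 ^ 3 + a 1 * v 0 ^ 2 * v 1 + a 2 * v 0 * v 1 ^ 2 + a 3 * v 1 ^ 3

/-- the derivative of `cub a` at `u` in direction `w` -/
def dcub (a : Fin 4 → ℝ) (u w : Fin 2 → ℝ) : ℝ :=
  3 * a 0 * u 0 ^ 2 * w 0 + a 1 * (2 * u 0 * w 0 * u 1 + u 0 ^ 2 * w 1) +
    a 2 * (w 0 * u 1 ^ 2 + 2 * u 0 * u 1 * w 1) + 3 * a 3 * u 1 ^ 2 * w 1

theorem cub_comb (a : Fin 4 → ℝ) (u w : Fin 2 → ℝ) (s t : ℝ) :
    cub a (s • u + t • w) = cub a u * s ^ 3 + dcub a u w * s ^ 2 * t + dcub a w u * s * t ^ 2 + cub a w * t ^ 3 := by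
  simp only [cub, dcub, Pi.add_apply, Pi.smul_apply, smul_eq_mul]
  ring

theorem dcub_comb (a : Fin 4 → ℝ) (u w : Fin 2 → ℝ) (r s t : ℝ) :
    dcub a (r • u) (s • u + t • w) = r ^ 2 * (3 * cub a u * s + dcub a u w * t) := by
  simp only [cub, dcub, Pi.add_apply, Pi.smul_apply, smul_eq_mul]
  ring

variable {k K : Type} [Field k] [Field K] [Algebra k K] {X : Mod k K}

/-- the coordinates of Theorem U -/
theorem coords [CharZero k] (h : Hyp X) (ν : Cart X →* Multiplicative (Fin 2 → ℤ)) (hν : Num ν) (p : Fin 2 → ℝ)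
    (hp1 : p ∈ closure (AmpV ν)) (hp2 : p ∉ interior (EffV ν))
    (hp3 : ∀ t : ℝ, t ≠ 0 → ∀ s : Fin 2 → ℤ, t • p ≠ fun i => (s i : ℝ)) :
    ∃ x y : (Fin 2 → ℝ) →ₗ[ℝ] ℝ, Coords ν p x y := by
  have hZ : NZ X := Pool.Agent.H20.TU.nzr h.var h.gen h.tr
  have hUF : UF X := uf_all h.var
  have hop : IsOpen (AmpV ν) := Pool.Agent.H36.TU.ampV_open h.var hν
  obtain ⟨F, hF⟩ := exists_F0 h
  obtain ⟨x, y, hc, -⟩ := coo h hν hZ hop (RF h.var h.gen F) (rfun_rf h.var h.gen hUF F hF) p hp1 hp2 hp3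
  exact ⟨x, y, hc⟩

/-- a basis of the plane: a class is the class of a monomial -/
theorem cv_mono (ν : Cart X →* Multiplicative (Fin 2 → ℤ)) (b : Fin 2 → Cart X)
    (hb : ∀ i, cv ν (b i) = Pi.single i 1) (m : Fin 2 → ℤ) :
    cv ν (b 0 ^ m 0 * b 1 ^ m 1) = fun i => (m i : ℝ) := by
  rw [cv_mul, cv_zpow, cv_zpow, hb, hb]
  funext i
  fin_cases i <;> simp

theorem cv_mono_self (ν : Cart X →* Multiplicative (Fin 2 → ℤ)) (b : Fin 2 → Cart X)
    (hb : ∀ i, cv ν (b i) = Pi.single i 1) (D : Cart X) :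
    ∃ m : Fin 2 → ℤ, cv ν (b 0 ^ m 0 * b 1 ^ m 1) = cv ν D :=
  ⟨Multiplicative.toAdd (ν D), by rw [cv_mono ν b hb]; rfl⟩

theorem cub_pos [CharZero k] (h : Hyp X) (ν : Cart X →* Multiplicative (Fin 2 → ℤ)) (hν : Num ν)
    (p : Fin 2 → ℝ) (hp1 : p ∈ closure (AmpV ν)) (hp2 : p ∉ interior (EffV ν))
    (hp3 : ∀ t : ℝ, t ≠ 0 → ∀ s : Fin 2 → ℤ, t • p ≠ fun i => (s i : ℝ))
    (b : Fin 2 → Cart X) (hb : ∀ i, cv ν (b i) = Pi.single i 1) (a : Fin 4 → ℝ)
    (hv : ∀ m : Fin 2 → ℤ, Ample (b 0 ^ m 0 * b 1 ^ m 1) →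
      vol (b 0 ^ m 0 * b 1 ^ m 1) = cub a fun i => (m i : ℝ))
    (hpos : ∀ m : Fin 2 → ℤ, Ample (b 0 ^ m 0 * b 1 ^ m 1) → 0 < cub a fun i => (m i : ℝ))
    (hint : ∀ m : Fin 2 → ℤ, ∃ z : ℤ, 6 * cub a (fun i => (m i : ℝ)) = z)
    (T : Cart X) (hT : Effective T) (hT' : ¬ Effective T⁻¹) : 0 < dcub a p (cv ν T) := by
  have hG : GF X := Pool.Agent.H20.TU.gf h.var h.gen h.tr
  have hUN : UN X := un_all h.var
  have hop : IsOpen (AmpV ν) := Pool.Agent.H36.TU.ampV_open h.var hν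
  have hac : AC ν := Pool.Agent.H36.TU.ac_holds h.var hν
  obtain ⟨x, y, hc⟩ := coords h ν hν p hp1 hp2 hp3
  obtain ⟨C1, hC1, hV⟩ := Pool.Agent.H36.TU.vol_le h hν hG hUN hc b hb
  obtain ⟨C2, hC2, hism⟩ := ism h hν hop hp1 hc
  obtain ⟨H, hH⟩ := h.amp
  have hxp := hc.xp
  have hyH := hc.yamp _ (ampV_cv ν H hH)
  -- the dual basis
  obtain ⟨u, hu⟩ : ∃ u, u = (1 / x p) • p := ⟨_, rfl⟩
  obtain ⟨w, hw⟩ : ∃ w, w = (1 / y (cv ν H)) • (cv ν H - (x (cv ν H)) • u) := ⟨_, rfl⟩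
  have hxu : x u = 1 := by
    rw [hu, map_smul, smul_eq_mul, one_div_mul_cancel hxp.ne']
  have hyu : y u = 0 := by
    rw [hu, map_smul, smul_eq_mul, hc.yp, mul_zero]
  have hxw : x w = 0 := by
    rw [hw, map_smul, map_sub, map_smul, smul_eq_mul, smul_eq_mul, hxu, mul_one, sub_self, mul_zero]
  have hyw : y w = 1 := by
    rw [hw, map_smul, map_sub, map_smul, smul_eq_mul, smul_eq_mul, hyu, mul_zero, sub_zero,
      one_div_mul_cancel hyH.ne']
  have hdec : ∀ v, v = (x v) • u + (y v) • w := fun v => by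
    have h1 := hc.inj (v - ((x v) • u + (y v) • w))
      (by rw [map_sub, map_add, map_smul, map_smul, hxu, hxw]; simp)
      (by rw [map_sub, map_add, map_smul, map_smul, hyu, hyw]; simp)
    exact sub_eq_zero.1 h1
  obtain ⟨A, hA⟩ : ∃ A, A = cub a u := ⟨_, rfl⟩
  obtain ⟨B, hB⟩ : ∃ B, B = dcub a u w := ⟨_, rfl⟩
  obtain ⟨C, hC⟩ : ∃ C, C = dcub a w u := ⟨_, rfl⟩
  obtain ⟨D, hD⟩ : ∃ D, D = cub a w := ⟨_, rfl⟩
  -- the small classes
  have key : ∀ N η : ℝ, 0 < η → ∃ s t : ℝ, N < s ∧ 0 < t ∧ t < η ∧ s * t ≤ C2 ∧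
      1 / 6 ≤ A * s ^ 3 + B * s ^ 2 * t + C * s * t ^ 2 + D * t ^ 3 ∧
      (t ≤ s → A * s ^ 3 + B * s ^ 2 * t + C * s * t ^ 2 + D * t ^ 3 ≤ C1 * s ^ 2 * t) := by
    intro N η hη
    obtain ⟨E, hE, h1, h2, h3⟩ := hism N η hη
    obtain ⟨m, hm⟩ := cv_mono_self ν b hb E
    have hE' : Indec ν (b 0 ^ m 0 * b 1 ^ m 1) := icg hm.symm hE
    have hEa : Ample (b 0 ^ m 0 * b 1 ^ m 1) := hac _ hE'.1
    have hcm := cv_mono ν b hb m
    have hcub : cub a (fun i => (m i : ℝ)) = A * x (cv ν E) ^ 3 + B * x (cv ν E) ^ 2 * y (cv ν E) +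
        C * x (cv ν E) * y (cv ν E) ^ 2 + D * y (cv ν E) ^ 3 := by
      rw [← hcm, hm]
      conv_lhs => rw [hdec (cv ν E)]
      rw [cub_comb, hA, hB, hC, hD]
    refine ⟨x (cv ν E), y (cv ν E), h2, hc.yamp _ hE.1, h1, h3, ?_, fun h4 => ?_⟩
    · rw [← hcub]
      obtain ⟨z, hz⟩ := hint m
      have h5 := hpos m hEa
      have h6 : (0 : ℝ) < z := by rw [← hz]; positivity
      have h7 : (1 : ℝ) ≤ z := by exact_mod_cast h6
      linarith
    · rw [← hcub, ← hv m hEa, ← hm]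
      exact hV m (by rw [hm]; exact hc.yamp _ hE.1) (by rw [hm]; exact h4)
  -- A = 0
  have hA0 : A = 0 := by
    by_contra hne
    have hA' : 0 < |A| := abs_pos.2 hne
    obtain ⟨M, hM⟩ : ∃ M, M = C1 * C2 + |B| * C2 + |C| * C2 + |D| := ⟨_, rfl⟩
    have hM0 : 0 ≤ M := by rw [hM]; positivity
    obtain ⟨s, t, h1, h2, h3, h4, h5, h6⟩ := key (max 1 (M / |A| + 1)) 1 one_pos
    rw [max_lt_iff] at h1
    have h6' := h6 (by linarith)
    have hs0 : 0 < s := by linarith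
    have e1 : |A| * s ^ 3 ≤ M * s := by
      have e2 : |A| * s ^ 3 = |A * s ^ 3| := by
        rw [abs_mul, abs_of_pos (pow_pos hs0 3)]
      have e3 : A * s ^ 3 = (A * s ^ 3 + B * s ^ 2 * t + C * s * t ^ 2 + D * t ^ 3) -
          B * s * (s * t) - C * (s * t) * t - D * t ^ 3 := by ring
      have b1 : |B * s * (s * t)| ≤ |B| * C2 * s := by
        rw [abs_mul, abs_mul, abs_of_pos hs0, abs_of_pos (mul_pos hs0 h2)]
        nlinarith [mul_nonneg (abs_nonneg B) hs0.le]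
      have b2 : |C * (s * t) * t| ≤ |C| * C2 * s := by
        rw [abs_mul, abs_mul, abs_of_pos h2, abs_of_pos (mul_pos hs0 h2)]
        have c1 : |C| * (s * t) ≤ |C| * C2 := mul_le_mul_of_nonneg_left h4 (abs_nonneg C)
        have c2 : 0 ≤ |C| * (s * t) := by positivity
        have c3 : 0 ≤ |C| * C2 := by positivity
        nlinarith
      have b3 : |D * t ^ 3| ≤ |D| * s := by
        rw [abs_mul, abs_of_pos (pow_pos h2 3)]
        have c1 : t ^ 3 ≤ 1 := pow_le_one₀ h2.le h3.le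
        exact mul_le_mul_of_nonneg_left (by linarith) (abs_nonneg D)
      have b4 : |A * s ^ 3 + B * s ^ 2 * t + C * s * t ^ 2 + D * t ^ 3| ≤ C1 * C2 * s := by
        rw [abs_of_nonneg (by linarith)]
        refine h6'.trans ?_
        have c1 : C1 * s ^ 2 * t = C1 * s * (s * t) := by ring
        rw [c1]
        have c2 := mul_le_mul_of_nonneg_left h4 (mul_pos hC1 hs0).le
        linarith
      rw [e2, e3]
      have t1 := abs_sub (A * s ^ 3 + B * s ^ 2 * t + C * s * t ^ 2 + D * t ^ 3 - B * s * (s * t) - C * (s * t) * t)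
        (D * t ^ 3)
      have t2 := abs_sub (A * s ^ 3 + B * s ^ 2 * t + C * s * t ^ 2 + D * t ^ 3 - B * s * (s * t)) (C * (s * t) * t)
      have t3 := abs_sub (A * s ^ 3 + B * s ^ 2 * t + C * s * t ^ 2 + D * t ^ 3) (B * s * (s * t))
      rw [hM]
      nlinarith
    have e4 : |A| * s ^ 2 ≤ M := by
      have : |A| * s ^ 2 * s ≤ M * s := by
        have e5 : |A| * s ^ 2 * s = |A| * s ^ 3 := by ring
        rw [e5]
        exact e1
      exact le_of_mul_le_mul_right this hs0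
    have e5 : M < |A| * s := by
      have := h1.2
      rw [div_add_one hA'.ne', div_lt_iff₀ hA'] at this
      nlinarith
    have e6 : |A| * s ≤ |A| * s ^ 2 := by
      have : s ≤ s ^ 2 := by nlinarith
      exact mul_le_mul_of_nonneg_left this hA'.le
    linarith
  -- B > 0
  have hB0 : 0 < B := by
    by_contra hneg
    push Not at hneg
    obtain ⟨M, hM⟩ : ∃ M, M = |C| * C2 + |D| + 1 := ⟨_, rfl⟩
    have hM0 : 1 ≤ M := by rw [hM]; nlinarith [abs_nonneg C, abs_nonneg D, mul_nonneg (abs_nonneg C) hC2.le]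
    obtain ⟨s, t, h1, h2, h3, h4, h5, -⟩ := key 1 (1 / (12 * M)) (by positivity)
    rw [hA0] at h5
    have hs0 : 0 < s := by linarith
    have ht1 : t ≤ 1 := by
      have : 1 / (12 * M) ≤ 1 := by
        rw [div_le_one (by positivity)]
        linarith
      linarith
    have b1 : B * s ^ 2 * t ≤ 0 := mul_nonpos_of_nonpos_of_nonneg (mul_nonpos_of_nonpos_of_nonneg hneg (sq_nonneg s)) h2.le
    have b2 : C * s * t ^ 2 ≤ |C| * C2 * t := by
      have c1 : C * s * t ^ 2 = C * (s * t) * t := by ring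
      rw [c1]
      refine mul_le_mul_of_nonneg_right ?_ h2.le
      calc C * (s * t) ≤ |C| * (s * t) := mul_le_mul_of_nonneg_right (le_abs_self C) (by positivity)
        _ ≤ |C| * C2 := mul_le_mul_of_nonneg_left h4 (abs_nonneg C)
    have b3 : D * t ^ 3 ≤ |D| * t := by
      have c1 : t ^ 3 ≤ t := by
        have c2 : t ^ 2 ≤ 1 := pow_le_one₀ h2.le ht1
        have c3 : t ^ 3 = t ^ 2 * t := by ring
        rw [c3]
        nlinarith
      calc D * t ^ 3 ≤ |D| * t ^ 3 := mul_le_mul_of_nonneg_right (le_abs_self D) (by positivity)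
        _ ≤ |D| * t := mul_le_mul_of_nonneg_left c1 (abs_nonneg D)
    have b4 : (|C| * C2 + |D|) * t ≤ 1 / 12 := by
      have c1 : M * t ≤ 1 / 12 := by
        rw [lt_div_iff₀ (by positivity)] at h3
        nlinarith
      rw [hM] at c1
      nlinarith
    have c5 : (0 : ℝ) * s ^ 3 = 0 := zero_mul _
    rw [c5] at h5
    nlinarith
  -- the derivative
  have hpu : p = (x p) • u := by
    rw [hu, smul_smul, mul_one_div_cancel hxp.ne', one_smul]
  have hfin : dcub a p (cv ν T) = (x p) ^ 2 * (3 * A * x (cv ν T) + B * y (cv ν T)) := by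
    conv_lhs => rw [hpu, hdec (cv ν T)]
    rw [dcub_comb, hA, hB]
  rw [hfin, hA0, mul_zero, zero_mul, zero_add]
  exact mul_pos (pow_pos hxp 2) (mul_pos hB0 (hc.ypos T hT hT'))

end Pool.Agent.H36.TK
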