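import Pool.Agent.H32.TK.HC
import Pool.Agent.H24.TK.Noe
import Pool.Agent.H36.TU.UN

/-!
# THEOREM K (MP_e49dc9_ag): the factorisation of effective divisors, without the numerical hypothesis

`factor_h`: an effective divisor is the sum of prime divisors and of a trivial divisor.

PROOF.  Otherwise `split_prime` gives an infinite chain of effective divisors `E (i + 1) = E i - S i`, `S i` prime.
`H` an ample divisor with a frame: the homogeneous ideals of the sections of `n H - E i` increase, so the ideals of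
`E i` and of `E (i + 1)` are equal for some `i` (`hom_acc`).  But some section of `n H - E (i + 1)` is a unit at the generic point
of `S i` (`un_pt`), it is not a section of `n H - E i`.
-/

set_option autoImplicit false

namespace Pool.Agent.H36.TK

open Pool.Agent.H54.RV Pool.Agent.H83.TU Pool.Agent.H83.TK Pool.Agent.H24.TK Pool.Agent.H32.TK

variable {k K : Type} [Field k] [Field K] [Algebra k K] {X : Mod k K}

/-- the homogeneous ideal of the sections of `n H - E` -/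
noncomputable def idE (H E : Cart X) (hE : Effective E) : HIdeal H where
  J n := secL (H ^ n * E⁻¹) 1
  le := by
    intro n s hs y
    have h1 : s * (H ^ n * E⁻¹).eq y ^ 1 ∈ X.O y := hs y
    rw [pow_one, mul_eq, pow_eq, inv_eq] at h1
    have h2 := (X.O y).mul_mem h1 (hE y)
    have e : s * (H.eq y ^ n * (E.eq y)⁻¹) * E.eq y = s * H.eq y ^ n := by
      have := E.ne y
      field_simp
    rwa [e] at h2
  mul := by
    intro m n a b ha hb y
    have h1 : b * (H ^ n * E⁻¹).eq y ^ 1 ∈ X.O y := hb y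
    rw [pow_one, mul_eq, pow_eq, inv_eq] at h1
    have h2 := (X.O y).mul_mem (ha y) h1
    rw [pow_one, mul_eq, pow_eq, inv_eq, pow_add]
    have e : a * H.eq y ^ m * (b * (H.eq y ^ n * (E.eq y)⁻¹)) = a * b * (H.eq y ^ m * H.eq y ^ n * (E.eq y)⁻¹) := by
      ring
    rwa [e] at h2

/-- a factorisation -/
def Fct (E : Cart X) : Prop :=
  ∃ (Ls : List (PDiv X × Cart X)) (U : Cart X), (∀ p ∈ Ls, SPr X p.1.η p.2) ∧ Effective U ∧ Effective U⁻¹ ∧
    E = (Ls.map Prod.snd).prod * U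

theorem fct_step (h : Hyp X) (E : {E : Cart X // Effective E ∧ ¬ Fct E}) :
    ∃ (P : PDiv X) (S : Cart X), SPr X P.η S ∧ Effective (E.1 * S⁻¹) ∧ ¬ Fct (E.1 * S⁻¹) := by
  obtain ⟨E, hE, hF⟩ := E
  have h1 : ¬ Effective E⁻¹ := fun h1 => hF ⟨[], E, by simp, hE, h1, by simp⟩
  obtain ⟨P, S, hS, hT⟩ := split_prime h hE h1
  refine ⟨P, S, hS, hT, ?_⟩
  rintro ⟨Ls, U, h4, h5, h6, h7⟩
  refine hF ⟨(P, S) :: Ls, U, ?_, h5, h6, ?_⟩
  · intro p hp
    rcases List.mem_cons.1 hp with h8 | h8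
    · rw [h8]
      exact hS
    · exact h4 p h8
  · rw [List.map_cons, List.prod_cons, mul_assoc, ← h7]
    show E = S * (E * S⁻¹)
    rw [mul_comm S, inv_mul_cancel_right]

/-- an effective divisor is a sum of prime divisors, up to a trivial divisor -/
theorem factor_h [CharZero k] (h : Hyp X) {E : Cart X} (hE : Effective E) :
    ∃ (Ls : List (PDiv X × Cart X)) (U : Cart X), (∀ p ∈ Ls, SPr X p.1.η p.2) ∧ Effective U ∧ Effective U⁻¹ ∧
      E = (Ls.map Prod.snd).prod * U := by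
  by_contra hF
  have hX := h.var
  obtain ⟨A, hA⟩ := h.amp
  obtain ⟨m, hm, r, t, hFr⟩ := exists_fr hX A hA
  obtain ⟨H, hH⟩ : ∃ H, H = A ^ m := ⟨_, rfl⟩
  rw [← hH] at hFr
  have hHa : Ample H := hFr.ample
  choose P S hS hT hN using fct_step h
  obtain ⟨e, he0, he⟩ : ∃ e : ℕ → {E : Cart X // Effective E ∧ ¬ Fct E}, e 0 = ⟨E, hE, hF⟩ ∧
      ∀ i, e (i + 1) = ⟨(e i).1 * (S (e i))⁻¹, hT (e i), hN (e i)⟩ :=
    ⟨fun i => Nat.rec ⟨E, hE, hF⟩ (fun _ E => ⟨E.1 * (S E)⁻¹, hT E, hN E⟩) i, rfl, fun _ => rfl⟩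
  have he' : ∀ i, (e (i + 1)).1 = (e i).1 * (S (e i))⁻¹ := fun i => by rw [he i]
  obtain ⟨i, hi⟩ := hom_acc hX h.gen hFr (fun i => idE H (e i).1 (e i).2.1) (by
    intro i n s hs y
    have h1 : s * (H ^ n * (e i).1⁻¹).eq y ^ 1 ∈ X.O y := hs y
    rw [pow_one, mul_eq, inv_eq] at h1
    have h2 := (X.O y).mul_mem h1 ((hS (e i)).eff y)
    show s * (H ^ n * (e (i + 1)).1⁻¹).eq y ^ 1 ∈ X.O y
    rw [he', pow_one, mul_eq, inv_eq, mul_eq, inv_eq, mul_inv, inv_inv]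
    have e1 : s * ((H ^ n).eq y * ((e i).1.eq y)⁻¹) * (S (e i)).eq y =
        s * ((H ^ n).eq y * (((e i).1.eq y)⁻¹ * (S (e i)).eq y)) := by
      ring
    rwa [e1] at h2)
  obtain ⟨n₀, hn₀⟩ := Pool.Agent.H36.TU.un_pt hX H (e (i + 1)).1⁻¹ hHa (P (e i)).η
  obtain ⟨s, hs1, hs2⟩ := hn₀ n₀ le_rfl
  have h1 : s ∈ (idE H (e (i + 1)).1 (e (i + 1)).2.1).J n₀ := hs1
  have h2 := hi (i + 1) (Nat.le_succ i)
  rw [h2] at h1
  have h3 : s * (H ^ n₀ * (e i).1⁻¹).eq (P (e i)).η ^ 1 ∈ X.O (P (e i)).η := h1 (P (e i)).η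
  have h4 : Un (X.O (P (e i)).η) (s * (H ^ n₀ * (e (i + 1)).1⁻¹).eq (P (e i)).η ^ 1) := hs2
  rw [he', pow_one, mul_eq, inv_eq, mul_eq, inv_eq, mul_inv, inv_inv] at h4
  rw [pow_one, mul_eq, inv_eq] at h3
  have hS0 := (S (e i)).ne (P (e i)).η
  refine (hS (e i)).nun (P (e i)).η specializes_rfl ⟨hS0, (hS (e i)).eff _, ?_⟩
  have h5 := (X.O (P (e i)).η).mul_mem h3 h4.2.2
  have e2 : s * ((H ^ n₀).eq (P (e i)).η * ((e i).1.eq (P (e i)).η)⁻¹) *
      (s * ((H ^ n₀).eq (P (e i)).η * (((e i).1.eq (P (e i)).η)⁻¹ * (S (e i)).eq (P (e i)).η)))⁻¹ =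
      ((S (e i)).eq (P (e i)).η)⁻¹ := by
    have h6 := (H ^ n₀).ne (P (e i)).η
    have h7 := (e i).1.ne (P (e i)).η
    have h8 : s ≠ 0 := left_ne_zero_of_mul h4.1
    field_simp
  rwa [e2] at h5

end Pool.Agent.H36.TK
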