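import Pool.Agent.H20.TK.Chi
import Pool.Agent.H41.TU.Fin
import Pool.Agent.H36.TK.Cub
import Pool.Agent.H32.TK.Grow

/-!
# THEOREM K (MP_e49dc9_ag), step (4): clause (I)(b) of Theorem U for the divisors `bas b m`

* `clb_rep`: `clb` of `H41/TU/ClB` with the additional information that the divisor is `b 0 ^ m 0 * b 1 ^ m 1`.
* `ib_rep`: clause (I)(b) for `bas b m`.
-/

set_option autoImplicit false

namespace Pool.Agent.H36.TK

open Pool.Agent.H57.KM Pool.Agent.H54.RV Pool.Agent.H83.TU Pool.Agent.H41.TU Pool.Agent.H20.TK Pool.Agent.H39.TU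

variable {k K : Type} [Field k] [Field K] [Algebra k K] {X : Mod k K}
  {ν : Cart X →* Multiplicative (Fin 2 → ℤ)} {p : Fin 2 → ℝ} {x y : (Fin 2 → ℝ) →ₗ[ℝ] ℝ}

private theorem clb_near (hc : Coords ν p x y) (a : Fin 2 → ℝ) (ha : 0 < y a)
    (ξ : (Fin 2 → ℝ) →ₗ[ℝ] ℝ) (hξ : 0 < ξ p) (U : Set (Fin 2 → ℝ)) (hU : IsOpen U) (hpU : p ∈ U) :
    ∃ δ : ℝ, 0 < δ ∧ ∀ v, 0 < x v → 0 < y v → y v < δ * x v →
      ξ p / (2 * x p) * x v ≤ ξ v ∧ ∃ t : ℝ, 0 < t ∧ t • v ∈ U := by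
  have hxp := hc.xp
  obtain ⟨g, hg⟩ : ∃ g, g = (1 / y a) • (a - (x a / x p) • p) := ⟨_, rfl⟩
  have hxg : x g = 0 := by
    rw [hg, map_smul, map_sub, map_smul, smul_eq_mul, smul_eq_mul, div_mul_cancel₀ _ hxp.ne', sub_self,
      mul_zero]
  have hyg : y g = 1 := by
    rw [hg, map_smul, map_sub, map_smul, smul_eq_mul, smul_eq_mul, hc.yp, mul_zero, sub_zero,
      one_div_mul_cancel ha.ne']
  have hV : IsOpen (U ∩ {w | ξ p / 2 < ξ w}) :=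
    hU.inter (isOpen_lt continuous_const (LinearMap.continuous_of_finiteDimensional ξ))
  have hφ : Continuous fun s : ℝ => p + s • g := by fun_prop
  have hpre := hV.preimage hφ
  have h0 : (0 : ℝ) ∈ (fun s : ℝ => p + s • g) ⁻¹' (U ∩ {w | ξ p / 2 < ξ w}) := by
    show p + (0 : ℝ) • g ∈ U ∩ {w | ξ p / 2 < ξ w}
    rw [zero_smul, add_zero]
    exact ⟨hpU, half_lt_self hξ⟩
  obtain ⟨ε, hε, hball⟩ := Metric.isOpen_iff.1 hpre 0 h0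
  refine ⟨ε / x p, div_pos hε hxp, fun v hxv hyv hlt => ?_⟩
  obtain ⟨w, hw⟩ : ∃ w, w = (x p / x v) • v := ⟨_, rfl⟩
  have hxw : x w = x p := by
    rw [hw, map_smul, smul_eq_mul, div_mul_cancel₀ _ hxv.ne']
  have hyw : y w = x p / x v * y v := by
    rw [hw, map_smul, smul_eq_mul]
  have hyw0 : 0 < y w := by rw [hyw]; positivity
  have hyw1 : y w < ε := by
    rw [hyw, div_mul_eq_mul_div, div_lt_iff₀ hxv]
    rw [div_mul_eq_mul_div, lt_div_iff₀ hxp] at hlt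
    linarith
  have hwp : w = p + (y w) • g := by
    have h1 := hc.inj (w - (p + (y w) • g)) (by
      rw [map_sub, map_add, map_smul, hxg, hxw, smul_zero, add_zero, sub_self]) (by
      rw [map_sub, map_add, map_smul, hyg, hc.yp, smul_eq_mul, mul_one, zero_add, sub_self])
    exact sub_eq_zero.1 h1
  have h2 : p + (y w) • g ∈ U ∩ {w | ξ p / 2 < ξ w} := by
    refine hball ?_
    rw [Metric.mem_ball, Real.dist_eq, sub_zero, abs_of_pos hyw0]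
    exact hyw1
  rw [← hwp] at h2
  refine ⟨?_, x p / x v, div_pos hxp hxv, ?_⟩
  · have h3 : ξ p / 2 < ξ w := h2.2
    rw [hw, map_smul, smul_eq_mul] at h3
    have h4 : ξ p / (2 * x p) * x v = (x v / x p) * (ξ p / 2) := by
      field_simp
    have h5 : ξ v = (x v / x p) * (x p / x v * ξ v) := by
      field_simp
    rw [h4, h5]
    exact mul_le_mul_of_nonneg_left h3.le (by positivity)
  · rw [← hw]
    exact h2.1

theorem clb_rep (h : Hyp X) (hν : Num ν) (hop : IsOpen (AmpV ν)) (hac : AC ν) (hG : GF X) (hM : Mai X)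
    (hp1 : p ∈ closure (AmpV ν)) (hc : Coords ν p x y) (b : Fin 2 → Cart X)
    (hb : ∀ i, cv ν (b i) = Pi.single i 1)
    (hV : ∃ C : ℝ, 0 < C ∧ ∀ m : Fin 2 → ℤ, 0 < y (cv ν (b 0 ^ m 0 * b 1 ^ m 1)) →
      y (cv ν (b 0 ^ m 0 * b 1 ^ m 1)) ≤ x (cv ν (b 0 ^ m 0 * b 1 ^ m 1)) →
      1 ≤ x (cv ν (b 0 ^ m 0 * b 1 ^ m 1)) →
      vol (b 0 ^ m 0 * b 1 ^ m 1) ≤ C * x (cv ν (b 0 ^ m 0 * b 1 ^ m 1)) ^ 2 * y (cv ν (b 0 ^ m 0 * b 1 ^ m 1)))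
    (ξ : (Fin 2 → ℝ) →ₗ[ℝ] ℝ) (hξ : 0 < ξ p) (U : Set (Fin 2 → ℝ)) (hU : IsOpen U) (hpU : p ∈ U) :
    ∃ m : Fin 2 → ℤ, Ample (b 0 ^ m 0 * b 1 ^ m 1) ∧ (∃ t : ℝ, 0 < t ∧ t • cv ν (b 0 ^ m 0 * b 1 ^ m 1) ∈ U) ∧
      (h0 (b 0 ^ m 0 * b 1 ^ m 1) 1 : ℝ) < vol (b 0 ^ m 0 * b 1 ^ m 1) + ξ (cv ν (b 0 ^ m 0 * b 1 ^ m 1)) := by
  obtain ⟨C1, hC1, hV⟩ := hV
  obtain ⟨C2, hC2, hism⟩ := ism h hν hop hp1 hc
  obtain ⟨κ, hκ⟩ : ∃ κ, κ = ξ p / (2 * x p) := ⟨_, rfl⟩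
  have hκ0 : 0 < κ := by rw [hκ]; exact div_pos hξ (mul_pos two_pos hc.xp)
  obtain ⟨H, hH⟩ := h.amp
  obtain ⟨δ0, hδ0, hnear⟩ := clb_near hc (cv ν H) (hc.yamp _ (ampV_cv ν H hH)) ξ hξ U hU hpU
  obtain ⟨N, δ, hδ, hcla⟩ := cla h hν hop hac hM hp1 hc (κ / (2 * C1 * C2)) (by positivity)
  have hm0 : 0 < min δ δ0 := lt_min hδ hδ0
  obtain ⟨D0, hD0, hy1, hxN, hxy⟩ := hism (max (N / κ) (max 1 (1 / min δ δ0))) 1 one_pos
  rw [max_lt_iff, max_lt_iff] at hxN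
  obtain ⟨hx1, hx2, hx3⟩ := hxN
  obtain ⟨m, hm⟩ : ∃ m : Fin 2 → ℤ, m = Multiplicative.toAdd (ν D0) := ⟨_, rfl⟩
  obtain ⟨D, hD⟩ : ∃ D, D = b 0 ^ m 0 * b 1 ^ m 1 := ⟨_, rfl⟩
  have hcv : cv ν D = cv ν D0 := by
    rw [hD, cv_mul, cv_zpow, cv_zpow, hb, hb, hm]
    funext i
    fin_cases i <;> simp [cv]
  have hDi : Indec ν D := icg hcv.symm hD0
  have hDa : Ample D := hac D hDi.1
  have hy0 : 0 < y (cv ν D) := hc.yamp _ hDi.1
  rw [← hcv] at hy1 hx1 hx2 hx3 hxy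
  obtain ⟨X', hX'⟩ : ∃ X', X' = x (cv ν D) := ⟨_, rfl⟩
  obtain ⟨Y', hY'⟩ : ∃ Y', Y' = y (cv ν D) := ⟨_, rfl⟩
  have hvol := hV m
  rw [← hD, ← hX', ← hY'] at hvol
  rw [← hX'] at hx1 hx2 hx3 hxy
  rw [← hY'] at hy1 hy0 hxy
  have hmin : 1 < min δ δ0 * X' := by
    rw [div_lt_iff₀ hm0] at hx3
    linarith
  have hX0 : 0 < X' := by linarith
  have hyδ : Y' < δ * X' := by
    have : min δ δ0 * X' ≤ δ * X' := mul_le_mul_of_nonneg_right (min_le_left _ _) hX0.le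
    linarith
  have hyδ0 : Y' < δ0 * X' := by
    have : min δ δ0 * X' ≤ δ0 * X' := mul_le_mul_of_nonneg_right (min_le_right _ _) hX0.le
    linarith
  have hvol' := hvol hy0 (by linarith) hx2.le
  have hn := hnear (cv ν D) (by rw [← hX']; exact hX0) (by rw [← hY']; exact hy0)
    (by rw [← hX', ← hY']; exact hyδ0)
  rw [← hκ, ← hX'] at hn
  refine ⟨m, by rw [← hD]; exact hDa, by rw [← hD]; exact hn.2, ?_⟩
  rw [← hD]
  by_contra hcon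
  push Not at hcon
  have hv0 := vol_nonneg hG D
  have hκN : (N : ℝ) < κ * X' := by
    rw [div_lt_iff₀ hκ0] at hx1
    linarith
  have h1 := hcla D hDi (by rw [← hX', ← hY']; exact hyδ)
  have h2 : (N : ℝ) < h0 D 1 := by linarith [hn.1]
  have h3 : (h0 D 1 : ℝ) ≤ (1 + κ / (2 * C1 * C2)) * vol D := by
    rcases le_max_iff.1 h1 with h4 | h4
    · linarith
    · exact h4
  have h4 : vol D ≤ C1 * C2 * X' := by
    have : C1 * X' ^ 2 * Y' = C1 * X' * (X' * Y') := by ring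
    rw [this] at hvol'
    have h5 : C1 * X' * (X' * Y') ≤ C1 * X' * C2 := mul_le_mul_of_nonneg_left hxy (by positivity)
    linarith
  have h5 : κ / (2 * C1 * C2) * vol D ≤ κ / (2 * C1 * C2) * (C1 * C2 * X') :=
    mul_le_mul_of_nonneg_left h4 (by positivity)
  have h6 : κ / (2 * C1 * C2) * (C1 * C2 * X') = κ * X' / 2 := by
    field_simp
  have h7 : 0 < κ * X' := mul_pos hκ0 hX0
  linarith [hn.1]


/-- clause (I)(b) of Theorem U for the divisors of the lattice -/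
theorem ib_rep [IsAlgClosed k] [CharZero k] (h : Hyp X) (hsm : ∀ x, SmP X x) (hν : Num ν)
    (hp1 : p ∈ closure (AmpV ν)) (hp2 : p ∉ interior (EffV ν))
    (hp3 : ∀ (t : ℝ) (s : Fin 2 → ℤ), t ≠ 0 → t • p ≠ toR s) {b : Fin 2 → Cart X}
    (hb : ∀ i, cv ν (b i) = Pi.single i 1) (ξ : (Fin 2 → ℝ) →ₗ[ℝ] ℝ) (hξ : 0 < ξ p) (U : Set (Fin 2 → ℝ))
    (hU : IsOpen U) (hpU : p ∈ U) :
    ∃ m : Fin 2 → ℤ, Ample (bas b m) ∧ (∃ t : ℝ, 0 < t ∧ t • toR m ∈ U) ∧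
      (h0 (bas b m) 1 : ℝ) < vol (bas b m) + ξ (toR m) := by
  have hG : GF X := Pool.Agent.H20.TU.gf h.var h.gen h.tr
  have hUN : UN X := un_all h.var
  have hop : IsOpen (AmpV ν) := Pool.Agent.H36.TU.ampV_open h.var hν
  have hac : AC ν := Pool.Agent.H36.TU.ac_holds h.var hν
  have hM : Mai X := mai_holds h hsm
  obtain ⟨x, y, hc⟩ := coords h ν hν p hp1 hp2 (fun t ht s => hp3 t s ht)
  obtain ⟨C, hC, hV⟩ := Pool.Agent.H36.TU.vol_le h hν hG hUN hc b hb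
  obtain ⟨m, h1, h2, h3⟩ := clb_rep h hν hop hac hG hM hp1 hc b hb ⟨C, hC, fun m h1 h2 _ => hV m h1 h2⟩ ξ hξ U hU hpU
  have h4 := cv_bas (ν := ν) hb m
  refine ⟨m, h1, ?_, ?_⟩
  · rw [← h4]
    exact h2
  · rw [← h4]
    exact h3

end Pool.Agent.H36.TK
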