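import Pool.Agent.H41.TW.W1

/-!
# THEOREM K (MP_e49dc9_ag): Lemma W for `B S² ≥ 0`

As `H41/TW/W1`, for `0 ≤ B S²`: one section is lost at most, in the first step, where the degree on the curve is at least
`- 2 chi (O_C)` and so `h¹ ≤ h⁰ (O_C) = 1`.
-/

set_option autoImplicit false

namespace Pool.Agent.H36.TK

open Pool.Agent.H54.RV Pool.Agent.H83.TU Pool.Agent.H83.TK Pool.Agent.H24.TK Pool.Agent.H41.TK Pool.Agent.H20.TK
  Pool.Agent.H41.TW

variable {k K : Type} [Field k] [Field K] [Algebra k K] {X : Mod k K}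
  {ν : Cart X →* Multiplicative (Fin 2 → ℤ)} {q : Fin 4 → ℝ} {l : (Fin 2 → ℝ) →ₗ[ℝ] ℝ} {c : ℝ}

/-- two linear functions which agree for large `n` -/
private theorem lin_eq {a b a' b' : ℝ} {N : ℕ} (h : ∀ n : ℕ, N ≤ n → a + n * b = a' + n * b') : a = a' ∧ b = b' := by
  have h1 := h N le_rfl
  have h2 := h (N + 1) (Nat.le_succ N)
  push_cast at h2
  have h3 : b = b' := by linarith
  refine ⟨?_, h3⟩
  rw [h3] at h1
  linarith

/-- a curve on the surface of the point `z`, with only the constants as regular functions -/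
def Ex1 (hX : IsVar X) (z : X.P) (A : Cart X) : Prop :=
  ∃ (m : ℕ) (k' K' : Type) (_ : Field k') (_ : Field K') (_ : Algebra k' K') (_ : CharZero k') (C : Mod k' K')
      (φ : Cart X →* Cart C), 1 ≤ m ∧ Crv C ∧ (∀ D, Ample D → Ample (φ D)) ∧
      (∀ W : Cart X, h0 (resD hX z W) 1 ≤ h0 (resD hX z (W * (A ^ m)⁻¹)) 1 + h0 (φ W) 1) ∧
      (∀ W D : Cart X, Ample D → ∃ n₀ : ℕ, ∀ n ≥ n₀,
        h0 (resD hX z (W * D ^ n)) 1 = h0 (resD hX z (W * D ^ n * (A ^ m)⁻¹)) 1 + h0 (φ (W * D ^ n)) 1) ∧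
      h0 (1 : Cart C) 1 = 1

theorem w_surf0 [CharZero k] (hX : IsVar X) (hg : ∃ g, Gen X g) (cy : CY q l c ν) {z : X.P}
    {S : Cart X} (hS : SPr X z S) (hA : Ample S) (hex : Ex1 hX z S) (B : Cart X)
    (hB : 0 ≤ tau q (cv ν B) (cv ν S) (cv ν S)) :
    chi q l c (cv ν B + cv ν S) - chi q l c (cv ν B) ≤ (h0 (resD hX z (B * S)) 1 : ℝ) + 1 := by
  obtain ⟨m, k', K', i1, i2, i3, hch, C, φ, hm, hC, hφ, hle, heq, hone⟩ := hex
  obtain ⟨t, ht⟩ : ∃ t, t = cv ν S := ⟨_, rfl⟩
  obtain ⟨τ, hτ⟩ : ∃ τ, τ = tau q t t t := ⟨_, rfl⟩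
  obtain ⟨e, he⟩ : ∃ e : ℝ, e = (Pool.Agent.H41.TK.chi C : ℤ) := ⟨_, rfl⟩
  have hm1 : (1 : ℝ) ≤ m := by exact_mod_cast hm
  have hdS : 0 < dg (φ S) := dg_ample hC _ (hφ S hA)
  -- the degree and the Euler characteristic of the curve
  have key : ∀ W : Cart X, m * tau q (cv ν W) t t - (m ^ 2 + m) * τ / 2 = (dg (φ W) : ℝ) + e ∧
      m * τ = (dg (φ S) : ℝ) := by
    intro W
    obtain ⟨w, hw⟩ : ∃ w, w = cv ν W := ⟨_, rfl⟩
    obtain ⟨n1, h1⟩ := surf_ev hX hg cy hS W S hA
    obtain ⟨n2, h2⟩ := surf_ev hX hg cy hS (W * (S ^ m)⁻¹) S hA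
    obtain ⟨n3, h3⟩ := heq W S hA
    obtain ⟨n4, h4⟩ : ∃ n4 : ℕ, ∀ n : ℕ, n4 ≤ n → - 2 * Pool.Agent.H41.TK.chi C < dg (φ W) + n * dg (φ S) := by
      refine ⟨(- 2 * Pool.Agent.H41.TK.chi C - dg (φ W) + 1).toNat, fun n hn => ?_⟩
      have h5 : (- 2 * Pool.Agent.H41.TK.chi C - dg (φ W) + 1) ≤ n := Int.toNat_le.1 hn
      have h6 : (n : ℤ) * 1 ≤ n * dg (φ S) := mul_le_mul_of_nonneg_left (by omega) (Int.natCast_nonneg _)
      omega
    refine lin_eq (N := max (max n1 n2) (max n3 n4)) fun n hn => ?_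
    have a1 := h1 n (le_trans ((le_max_left _ _).trans (le_max_left _ _)) hn)
    have a2 := h2 n (le_trans ((le_max_right _ _).trans (le_max_left _ _)) hn)
    have a3 := h3 n (le_trans ((le_max_left _ _).trans (le_max_right _ _)) hn)
    have a4 := h4 n (le_trans ((le_max_right _ _).trans (le_max_right _ _)) hn)
    have a5 : dg (φ (W * S ^ n)) = dg (φ W) + n * dg (φ S) := by
      rw [map_mul, map_pow, dg_mul hC, dg_pow hC]
    have a6 := h0_eq hC (φ (W * S ^ n)) (by rw [a5]; exact a4)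
    rw [a5] at a6
    have a7 : (h0 (φ (W * S ^ n)) 1 : ℝ) = dg (φ W) + n * dg (φ S) + e := by
      rw [he]
      exact_mod_cast a6
    have a8 : (h0 (resD hX z (W * S ^ n)) 1 : ℝ) =
        h0 (resD hX z (W * (S ^ m)⁻¹ * S ^ n)) 1 + h0 (φ (W * S ^ n)) 1 := by
      rw [mul_right_comm W]
      exact_mod_cast a3
    have a9 : cv ν (W * S ^ n) = w + (n : ℝ) • t := by
      rw [cv_mul, cv_pow, ← hw, ← ht]
    have a10 : cv ν (W * (S ^ m)⁻¹ * S ^ n) = w + (n : ℝ) • t - (m : ℝ) • t := by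
      rw [mul_right_comm, cv_mul, cv_inv, cv_pow ν S m, a9, ← ht, sub_eq_add_neg]
    rw [a1, a2, a7, a9, a10, ← ht] at a8
    have a11 := chT_sub q l c t (w + (n : ℝ) • t) ((m : ℝ) • t)
    simp only [tau_add, tau_smul, tau_smul2, ← hτ] at a11
    rw [← hw]
    linarith
  obtain ⟨k1, k2⟩ := key 1
  rw [map_one, dg_one, cv_one] at k1
  have k3 : tau q 0 t t = 0 := by
    unfold tau
    simp
  rw [k3] at k1
  have k4 : e = -((m ^ 2 + m) * τ / 2) := by
    push_cast at k1
    linarith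
  have hτ0 : 0 < τ := by
    have h1 : (0 : ℝ) < dg (φ S) := by exact_mod_cast hdS
    rw [← k2] at h1
    exact (pos_iff_pos_of_mul_pos h1).1 (by linarith)
  -- the steps
  obtain ⟨W, hW⟩ : ∃ W : ℕ → Cart X, W = fun j => B * S * S ^ (m * j) := ⟨_, rfl⟩
  have cW : ∀ j, cv ν (W j) = cv ν B + (1 + m * j : ℝ) • t := by
    intro j
    rw [hW]
    show cv ν (B * S * S ^ (m * j)) = _
    rw [cv_mul, cv_mul, cv_pow, ← ht, add_smul, one_smul, add_assoc]
    push_cast
    rfl
  have step : ∀ j : ℕ, (h0 (resD hX z (W (j + 1))) 1 : ℝ) ≤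
      h0 (resD hX z (W j)) 1 + (chT q l c t (cv ν (W (j + 1))) - chT q l c t (cv ν (W j))) +
        (if j = 0 then 1 else 0) := by
    intro j
    have b1 := hle (W (j + 1))
    have b2 : W (j + 1) * (S ^ m)⁻¹ = W j := by
      rw [hW]
      show B * S * S ^ (m * (j + 1)) * (S ^ m)⁻¹ = B * S * S ^ (m * j)
      rw [mul_add, mul_one, pow_add, ← mul_assoc, mul_inv_cancel_right]
    rw [b2] at b1
    have b3 := (key (W (j + 1))).1
    have b4 : tau q (cv ν (W (j + 1))) t t = tau q (cv ν B) t t + (1 + m * (j + 1 : ℕ)) * τ := by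
      rw [cW, tau_add, tau_smul, ← hτ]
    have hj : (0 : ℝ) ≤ j := Nat.cast_nonneg j
    have b5 : (0 : ℝ) ≤ tau q (cv ν B) t t := by
      rw [ht]
      exact hB
    have c1 : (dg (φ (W (j + 1))) : ℝ) = m * tau q (cv ν (W (j + 1))) t t := by
      rw [k4] at b3
      linarith
    have c2 : 0 ≤ m * tau q (cv ν B) t t := mul_nonneg (by linarith) b5
    have b9 : (h0 (φ (W (j + 1))) 1 : ℝ) ≤ dg (φ (W (j + 1))) + e + (if j = 0 then 1 else 0) := by
      by_cases hj0 : j = 0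
      · rw [if_pos hj0]
        have c4 := rr hC (φ (W (j + 1)))
        have c5 : (hh (φ (W (j + 1))) : ℤ) ≤ 1 := by
          by_cases c6 : hh (φ (W (j + 1))) = 0
          · rw [c6]
            norm_num
          · have c7 := hh_bd hC (φ (W (j + 1))) c6
            have c8 := rr hC (1 : Cart C)
            rw [hone, dg_one] at c8
            have c9 : -2 * e ≤ (dg (φ (W (j + 1))) : ℝ) := by
              rw [c1, b4, k4]
              have c3 : 0 ≤ m * m * (j : ℝ) * τ :=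
                mul_nonneg (mul_nonneg (mul_nonneg (by linarith) (by linarith)) hj) hτ0.le
              push_cast
              nlinarith
            rw [he] at c9
            have c10 : -2 * Pool.Agent.H41.TK.chi C ≤ dg (φ (W (j + 1))) := by exact_mod_cast c9
            push_cast at c8
            omega
        have c11 : (h0 (φ (W (j + 1))) 1 : ℤ) ≤ dg (φ (W (j + 1))) + Pool.Agent.H41.TK.chi C + 1 := by omega
        rw [he]
        exact_mod_cast c11
      · rw [if_neg hj0, add_zero]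
        have b6 : -2 * e < (dg (φ (W (j + 1))) : ℝ) := by
          rw [c1, b4, k4]
          have hj1 : (1 : ℝ) ≤ j := by
            have : 1 ≤ j := Nat.one_le_iff_ne_zero.2 hj0
            exact_mod_cast this
          have c3 : 0 < m * m * (j : ℝ) * τ :=
            mul_pos (mul_pos (mul_pos (by linarith) (by linarith)) (by linarith)) hτ0
          push_cast
          nlinarith
        have b7 : -2 * Pool.Agent.H41.TK.chi C < dg (φ (W (j + 1))) := by
          rw [he] at b6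
          exact_mod_cast b6
        have b8 := h0_eq hC _ b7
        have b9 : (h0 (φ (W (j + 1))) 1 : ℝ) = dg (φ (W (j + 1))) + e := by
          rw [he]
          exact_mod_cast b8
        exact b9.le
    have b10 : (h0 (resD hX z (W (j + 1))) 1 : ℝ) ≤ h0 (resD hX z (W j)) 1 + h0 (φ (W (j + 1))) 1 := by
      exact_mod_cast b1
    have b11 : cv ν (W j) = cv ν (W (j + 1)) - (m : ℝ) • t := by
      rw [cW, cW, add_sub_assoc, ← sub_smul]
      congr 2
      push_cast
      ring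
    have b12 := chT_sub q l c t (cv ν (W (j + 1))) ((m : ℝ) • t)
    rw [← b11] at b12
    simp only [tau_smul, tau_smul2, ← hτ] at b12
    linarith
  have all : ∀ J : ℕ, (h0 (resD hX z (W J)) 1 : ℝ) ≤
      h0 (resD hX z (W 0)) 1 + (chT q l c t (cv ν (W J)) - chT q l c t (cv ν (W 0))) +
        (if J = 0 then 0 else 1) := by
    intro J
    induction J with
    | zero => simp
    | succ J ih =>
      have h7 := step J
      rw [if_neg (Nat.succ_ne_zero J)]
      by_cases h8 : J = 0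
      · rw [if_pos h8] at h7 ih
        linarith
      · rw [if_neg h8] at h7 ih
        linarith
  have all' : ∀ J : ℕ, (h0 (resD hX z (W J)) 1 : ℝ) ≤
      h0 (resD hX z (W 0)) 1 + (chT q l c t (cv ν (W J)) - chT q l c t (cv ν (W 0))) + 1 := by
    intro J
    have h7 := all J
    by_cases h8 : J = 0
    · rw [if_pos h8] at h7
      linarith
    · rw [if_neg h8] at h7
      exact h7
  obtain ⟨n1, h1⟩ := surf_ev hX hg cy hS (B * S) S hA
  have h2 := h1 (m * n1) (by nlinarith)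
  have h3 := all' n1
  have h4 : W n1 = B * S * S ^ (m * n1) := by rw [hW]
  rw [← h4, ← ht] at h2
  have h5 : W 0 = B * S := by
    rw [hW]
    show B * S * S ^ (m * 0) = B * S
    rw [mul_zero, pow_zero, mul_one]
  rw [h5] at h3
  have h6 : chT q l c t (cv ν (B * S)) = Pool.Agent.H20.TK.chi q l c (cv ν B + cv ν S) -
      Pool.Agent.H20.TK.chi q l c (cv ν B) := by
    unfold chT
    rw [cv_mul, ← ht, add_sub_cancel_right]
  rw [← h6]
  linarith

/-- Lemma W: `j` is a bound for the codimension of the restrictions (`j = h¹ (B)`) -/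
theorem lem_w0 [CharZero k] (hX : IsVar X) (hg : ∃ g, Gen X g) (cy : CY q l c ν) {z : X.P}
    {S : Cart X} (hS : SPr X z S) (hA : Ample S) (hex : Ex1 hX z S) (B : Cart X)
    (hB : 0 ≤ tau q (cv ν B) (cv ν S) (cv ν S)) (j : ℕ)
    (hj : h0 (resD hX z (B * S)) 1 ≤ Module.finrank k (LinearMap.range (resS hX z (B * S) 1)) + j) :
    Pool.Agent.H20.TK.chi q l c (cv ν B + cv ν S) - Pool.Agent.H20.TK.chi q l c (cv ν B) + h0 B 1 ≤
      (h0 (B * S) 1 : ℝ) + j + 1 := by
  have h1 := w_surf0 hX hg cy hS hA hex B hB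
  have := fd hX hg hA (B * S)
  have h2 := ex_dim hX hS (B * S) 1
  rw [pow_one, mul_inv_cancel_right] at h2
  have h3 : (h0 (resD hX z (B * S)) 1 : ℝ) + h0 B 1 ≤ h0 (B * S) 1 + j := by
    exact_mod_cast (by omega : h0 (resD hX z (B * S)) 1 + h0 B 1 ≤ h0 (B * S) 1 + j)
  linarith

end Pool.Agent.H36.TK
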